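import Pool.Agent.Q97.UM.Stm10

set_option autoImplicit false

/-!
# Pointwise bounds from the deterministic formula (UM5-DETP)
-/

namespace Pool.Agent.Q177.UM

open Filter Topology MeasureTheory Complex
open Pool.Agent.Q97.UM

noncomputable section

theorem detp_zero {T : ℝ} {s : ℂ} (hs : s ∈ ZD T) : riemannZeta s = 0 := by
  unfold ZD H370.Zf at hs
  split_ifs at hs with h
  · rw [Set.Finite.mem_toFinset] at hs
    obtain ⟨_, _, _, _, h5⟩ := hs
    exact h5
  · simp at hs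

theorem detp_one {δ L a u : ℝ} (hδ : 0 < δ) (hδ1 : δ ≤ 1 / 8) (hL : 0 ≤ L) :
    1 / (1 + δ * L * |u|) ^ 2 ≤ (1 / δ) ^ 2 * (Real.exp (2 * δ * (L * |a|)) / (1 + L * |u|) ^ 2) := by
  have h1 : 1 ≤ Real.exp (2 * δ * (L * |a|)) := Real.one_le_exp (by positivity)
  have h2 : 0 ≤ L * |u| := by positivity
  have h3 : δ * (1 + L * |u|) ≤ 1 + δ * L * |u| := by nlinarith
  have h4 : (δ * (1 + L * |u|)) ^ 2 ≤ (1 + δ * L * |u|) ^ 2 :=
    pow_le_pow_left₀ (by positivity) h3 2
  calc 1 / (1 + δ * L * |u|) ^ 2 ≤ 1 / (δ * (1 + L * |u|)) ^ 2 :=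
        one_div_le_one_div_of_le (by positivity) h4
    _ = (1 / δ) ^ 2 * (1 / (1 + L * |u|) ^ 2) := by
        rw [mul_pow]; field_simp
    _ ≤ _ := by gcongr

theorem detp_two {δ L a u r : ℝ} (hδ : 0 < δ) (hδ1 : δ ≤ 1 / 8) (hL : 0 < L) (hr : 0 < r)
    (hur : |u| ≤ r) :
    max 0 (Real.log (1 / (δ * L * r))) ≤ max 0 (Real.log (1 / (L * r))) +
      Real.log (1 / δ) * (1 + 1 / δ) ^ 2 * (Real.exp (2 * δ * (L * |a|)) / (1 + L * |u|) ^ 2) := by
  have hlog : 0 ≤ Real.log (1 / δ) := by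
    apply Real.log_nonneg
    rw [le_div_iff₀ hδ]
    linarith
  have h0 : 0 ≤ Real.log (1 / δ) * (1 + 1 / δ) ^ 2 *
      (Real.exp (2 * δ * (L * |a|)) / (1 + L * |u|) ^ 2) := by positivity
  have hm : 0 ≤ max 0 (Real.log (1 / (L * r))) := le_max_left _ _
  rcases le_total (δ * L * r) 1 with h | h
  · have h1 : Real.log (1 / (δ * L * r)) = Real.log (1 / (L * r)) + Real.log (1 / δ) := by
      rw [← Real.log_mul (by positivity) (by positivity)]
      congr 1
      field_simp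
    have h2 : L * |u| ≤ 1 / δ := by
      rw [le_div_iff₀ hδ]
      calc L * |u| * δ ≤ L * r * δ := by gcongr
        _ = δ * L * r := by ring
        _ ≤ 1 := h
    have h3 : 1 ≤ (1 + 1 / δ) ^ 2 * (Real.exp (2 * δ * (L * |a|)) / (1 + L * |u|) ^ 2) := by
      have h4 : 1 ≤ Real.exp (2 * δ * (L * |a|)) := Real.one_le_exp (by positivity)
      have h5 : (1 + L * |u|) ^ 2 ≤ (1 + 1 / δ) ^ 2 :=
        pow_le_pow_left₀ (by positivity) (by linarith) 2
      rw [mul_div_assoc', le_div_iff₀ (by positivity), one_mul]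
      calc (1 + L * |u|) ^ 2 ≤ (1 + 1 / δ) ^ 2 := h5
        _ ≤ (1 + 1 / δ) ^ 2 * Real.exp (2 * δ * (L * |a|)) :=
          le_mul_of_one_le_right (by positivity) h4
    refine max_le (by positivity) ?_
    rw [h1]
    have h6 := le_max_right 0 (Real.log (1 / (L * r)))
    have h7 : Real.log (1 / δ) * 1 ≤ Real.log (1 / δ) *
        ((1 + 1 / δ) ^ 2 * (Real.exp (2 * δ * (L * |a|)) / (1 + L * |u|) ^ 2)) :=
      mul_le_mul_of_nonneg_left h3 hlog
    rw [mul_one, ← mul_assoc] at h7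
    linarith
  · have h1 : Real.log (1 / (δ * L * r)) ≤ 0 := by
      apply Real.log_nonpos (by positivity)
      rw [div_le_one (by positivity)]
      exact h
    rw [max_eq_left h1]
    linarith

theorem t_DETP : J_DETP := by
  intro _ hKLG hDETQ ψ₁ k₀ hk δ hδ hδ1
  obtain ⟨C₂, hC₂, hG⟩ := hKLG ψ₁ k₀ hk
  obtain ⟨C₁, hC₁, hQ⟩ := hDETQ ψ₁ k₀ hk δ hδ hδ1
  set Cx : ℝ := Real.log (1 / δ) * (1 + 1 / δ) ^ 2 with hCx
  have hlog : 0 ≤ Real.log (1 / δ) := by
    apply Real.log_nonneg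
    rw [le_div_iff₀ hδ]
    linarith
  have hCx0 : 0 ≤ Cx := by positivity
  set Cy : ℝ := C₂ * (1 / δ) ^ 2 with hCy
  have hCy0 : 0 ≤ Cy := by positivity
  refine ⟨C₁ + Cy + Cx, by positivity, ?_⟩
  have hLbig : ∀ᶠ T : ℝ in atTop, 1 / δ ≤ Real.log T :=
    Real.tendsto_log_atTop.eventually_ge_atTop _
  filter_upwards [hQ, hLbig] with T hT hL t ht1 ht2 hz
  have h := hT t ht1 ht2 hz
  have hL0 : 0 < Real.log T := lt_of_lt_of_le (by positivity) hL
  have hD : 1 ≤ δ * Real.log T := by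
    rw [div_le_iff₀ hδ] at hL
    linarith
  set F := (ZD T).filter (fun s => |s.im - t| ≤ 1) with hF
  set W : ℂ → ℝ := fun s => Real.exp (2 * δ * (Real.log T * |s.re - 1 / 2|)) /
    (1 + Real.log T * |s.im - t|) ^ 2 with hW
  have hW0 : ∀ s, 0 ≤ W s := fun s => by positivity
  have hSS : ∑ s ∈ F, (mz s : ℝ) * W s ≤ SS δ T t := by
    unfold SS
    exact Finset.sum_le_sum_of_subset_of_nonneg (Finset.filter_subset _ _)
      (fun s _ _ => mul_nonneg (Nat.cast_nonneg _) (hW0 s))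
  have hSS0 : 0 ≤ SS δ T t := by
    unfold SS
    exact Finset.sum_nonneg fun s _ => mul_nonneg (Nat.cast_nonneg _) (hW0 s)
  have hne : ∀ s ∈ F, (t - s.im ≠ 0 ∨ 1 / 2 - s.re ≠ 0) := by
    intro s hs
    by_contra hc
    push Not at hc
    apply hz
    have h1 : s = 1 / 2 + t * I := by
      apply Complex.ext
      · simp; linarith [hc.2]
      · simp; linarith [hc.1]
    have h2 := detp_zero (Finset.mem_filter.mp hs).1
    unfold zt
    rw [← h1]
    exact h2
  have habs : ∀ s : ℂ, |t - s.im| = |s.im - t| := fun s => abs_sub_comm _ _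
  have hnorm : ∀ s : ℂ, Real.sqrt ((t - s.im) ^ 2 + (1 / 2 - s.re) ^ 2) =
      ‖s - (1 / 2 + t * I)‖ := by
    intro s
    rw [Complex.norm_eq_sqrt_sq_add_sq]
    congr 1
    simp
    ring
  have hup : ∑ s ∈ F, (mz s : ℝ) * GK k₀ (δ * Real.log T) (t - s.im) (1 / 2 - s.re) ≤
      Cy * SS δ T t := by
    calc ∑ s ∈ F, (mz s : ℝ) * GK k₀ (δ * Real.log T) (t - s.im) (1 / 2 - s.re)
        ≤ ∑ s ∈ F, Cy * ((mz s : ℝ) * W s) := by
          refine Finset.sum_le_sum fun s hs => ?_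
          have h1 := (hG (δ * Real.log T) (t - s.im) (1 / 2 - s.re) hD (hne s hs)).2.1
          have h2 := detp_one (δ := δ) (L := Real.log T) (a := s.re - 1 / 2) (u := s.im - t)
            hδ hδ1 hL0.le
          have h3 : GK k₀ (δ * Real.log T) (t - s.im) (1 / 2 - s.re) ≤ Cy * W s := by
            refine h1.trans ?_
            rw [habs, div_eq_mul_one_div]
            refine (mul_le_mul_of_nonneg_left h2 hC₂).trans (le_of_eq ?_)
            simp only [hW, hCy]
            ring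
          calc (mz s : ℝ) * GK k₀ (δ * Real.log T) (t - s.im) (1 / 2 - s.re)
              ≤ (mz s : ℝ) * (Cy * W s) := mul_le_mul_of_nonneg_left h3 (Nat.cast_nonneg _)
            _ = Cy * ((mz s : ℝ) * W s) := by ring
      _ = Cy * ∑ s ∈ F, (mz s : ℝ) * W s := by rw [Finset.mul_sum]
      _ ≤ Cy * SS δ T t := mul_le_mul_of_nonneg_left hSS hCy0
  have hlow : -(Cy + Cx) * SS δ T t - SL T t ≤
      ∑ s ∈ F, (mz s : ℝ) * GK k₀ (δ * Real.log T) (t - s.im) (1 / 2 - s.re) := by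
    have hSL : ∑ s ∈ F, (mz s : ℝ) *
        max 0 (Real.log (1 / (Real.log T * ‖s - (1 / 2 + t * I)‖))) ≤ SL T t := by
      unfold SL
      exact Finset.sum_le_sum_of_subset_of_nonneg (Finset.filter_subset _ _)
        (fun s _ _ => mul_nonneg (Nat.cast_nonneg _) (le_max_left _ _))
    have h5 : ∑ s ∈ F, (-(Cy + Cx) * ((mz s : ℝ) * W s) - (mz s : ℝ) *
        max 0 (Real.log (1 / (Real.log T * ‖s - (1 / 2 + t * I)‖)))) ≤
        ∑ s ∈ F, (mz s : ℝ) * GK k₀ (δ * Real.log T) (t - s.im) (1 / 2 - s.re) := by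
      refine Finset.sum_le_sum fun s hs => ?_
      have h1 := (hG (δ * Real.log T) (t - s.im) (1 / 2 - s.re) hD (hne s hs)).2.2.1
      have h2 := detp_one (δ := δ) (L := Real.log T) (a := s.re - 1 / 2) (u := s.im - t)
        hδ hδ1 hL0.le
      have hr : 0 < ‖s - (1 / 2 + t * I)‖ := by
        rw [← hnorm]
        apply Real.sqrt_pos.mpr
        rcases hne s hs with h | h <;> positivity
      have hur : |s.im - t| ≤ ‖s - (1 / 2 + t * I)‖ := by
        have := Complex.abs_im_le_norm (s - (1 / 2 + t * I))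
        simpa using this
      have h3 := detp_two (δ := δ) (L := Real.log T) (a := s.re - 1 / 2) (u := s.im - t)
        (r := ‖s - (1 / 2 + t * I)‖) hδ hδ1 hL0 hr hur
      rw [hnorm, habs] at h1
      have h4 : C₂ / (1 + δ * Real.log T * |s.im - t|) ^ 2 ≤ Cy * W s := by
        rw [div_eq_mul_one_div]
        refine (mul_le_mul_of_nonneg_left h2 hC₂).trans (le_of_eq ?_)
        simp only [hW, hCy]
        ring
      have h6 : -(Cy + Cx) * W s - max 0 (Real.log (1 / (Real.log T * ‖s - (1 / 2 + t * I)‖))) ≤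
          GK k₀ (δ * Real.log T) (t - s.im) (1 / 2 - s.re) := by
        have h7 : Cx * W s = Real.log (1 / δ) * (1 + 1 / δ) ^ 2 *
          (Real.exp (2 * δ * (Real.log T * |s.re - 1 / 2|)) /
            (1 + Real.log T * |s.im - t|) ^ 2) := rfl
        rw [← h7] at h3
        linarith
      calc -(Cy + Cx) * ((mz s : ℝ) * W s) - (mz s : ℝ) *
            max 0 (Real.log (1 / (Real.log T * ‖s - (1 / 2 + t * I)‖)))
          = (mz s : ℝ) * (-(Cy + Cx) * W s -
            max 0 (Real.log (1 / (Real.log T * ‖s - (1 / 2 + t * I)‖)))) := by ring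
        _ ≤ _ := mul_le_mul_of_nonneg_left h6 (Nat.cast_nonneg _)
    rw [Finset.sum_sub_distrib, ← Finset.mul_sum] at h5
    have h8 : -(Cy + Cx) * SS δ T t ≤ -(Cy + Cx) * ∑ s ∈ F, (mz s : ℝ) * W s := by
      have := mul_le_mul_of_nonneg_left hSS (add_nonneg hCy0 hCx0)
      linarith
    linarith
  rw [abs_le] at h
  constructor
  · nlinarith [h.2, hup, mul_nonneg hCx0 hSS0, mul_nonneg hC₁ hSS0]
  · nlinarith [h.1, hlow, mul_nonneg hCx0 hSS0, mul_nonneg hC₁ hSS0]

end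

end Pool.Agent.Q177.UM
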