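import Pool.Agent.Q97.UM.Stm10

set_option autoImplicit false

/-!
# Facts about the smoothing kernel (UM5-KB)
-/

namespace Pool.Agent.Q177.UM

open Filter Topology MeasureTheory Complex
open Pool.Agent.W182.KO (P TF)
open Pool.Agent.Q97.UM
open scoped ContDiff

noncomputable section

theorem kb_tf {ψ₁ k₀ : ℝ → ℝ} (h : Ker ψ₁ k₀) : TF 1 (fun u => (ψ₁ u : ℂ)) where
  cd := Complex.ofRealCLM.contDiff.comp h.smooth
  cs := by
    refine HasCompactSupport.intro (isCompact_Icc (a := (-1 : ℝ)) (b := 1)) fun x hx => ?_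
    have h1 : 1 ≤ |x| := by
      by_contra hc
      push Not at hc
      rw [abs_lt] at hc
      exact hx ⟨hc.1.le, hc.2.le⟩
    rw [h.supp x h1]
    simp
  sp := fun ξ hξ => by
    rw [h.supp ξ (hξ.le.trans (le_abs_self ξ))]
    simp

theorem kb_conj (ψ₁ : ℝ → ℝ) (z : ℂ) :
    P (fun u => (ψ₁ u : ℂ)) (starRingEnd ℂ z) = starRingEnd ℂ (P (fun u => (ψ₁ u : ℂ)) z) := by
  unfold P
  rw [← integral_conj]
  congr 1
  funext ξ
  rw [map_mul, conj_ofReal, ← exp_conj, map_mul, conj_ofReal]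

theorem kb_even {ψ₁ k₀ : ℝ → ℝ} (h : Ker ψ₁ k₀) (x : ℝ) : k₀ (-x) = k₀ x := by
  have h1 := h.rep (-x)
  have h2 : (((-x : ℝ) : ℂ) * I) = starRingEnd ℂ ((x : ℂ) * I) := by
    rw [map_mul, conj_ofReal, conj_I]
    push_cast
    ring
  rw [h2, kb_conj] at h1
  have h3 : (k₀ x : ℂ) = starRingEnd ℂ (k₀ x : ℂ) := (conj_ofReal _).symm
  rw [h.rep x, map_mul, conj_ofReal] at h3
  have h4 : (k₀ (-x) : ℂ) = (k₀ x : ℂ) := by
    rw [h1, ← h3, h.rep x]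
  exact_mod_cast h4

theorem kb_bound {ψ₁ k₀ : ℝ → ℝ} (h : Ker ψ₁ k₀) (m : ℕ) :
    ∃ C : ℝ, 0 ≤ C ∧ (∀ x, k₀ x ≤ C / (1 + |x|) ^ m) ∧
    ∀ z : ℂ, 0 ≤ z.re → ‖P (fun u => (ψ₁ u : ℂ)) z‖ ≤ C * Real.exp z.re / (1 + ‖z‖) ^ m := by
  obtain ⟨C, hC, hb⟩ := Pool.Agent.W182.KO.P_bound (kb_tf h) m
  have hb' : ∀ z : ℂ, 0 ≤ z.re →
      ‖P (fun u => (ψ₁ u : ℂ)) z‖ ≤ C * Real.exp z.re / (1 + ‖z‖) ^ m := by
    intro z hz
    rw [le_div_iff₀ (by positivity)]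
    have := hb z hz
    rwa [one_mul] at this
  refine ⟨C, hC, fun x => ?_, hb'⟩
  have h1 := hb' ((x : ℂ) * I) (by simp)
  have h2 : k₀ x = ‖(k₀ x : ℂ)‖ := by
    rw [norm_real, Real.norm_of_nonneg (h.nonneg x)]
  have h3 : ((x : ℂ) * I).re = 0 := by simp
  have h4 : ‖(x : ℂ) * I‖ = |x| := by simp
  rw [h3, h4, Real.exp_zero, mul_one] at h1
  rw [h2, h.rep x, norm_mul, norm_real, Real.norm_of_nonneg (by positivity)]
  have h5 : (1 / (2 * Real.pi) : ℝ) ≤ 1 := by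
    rw [div_le_one (by positivity)]
    have := Real.pi_gt_three
    linarith
  calc (1 / (2 * Real.pi) : ℝ) * ‖P (fun u => (ψ₁ u : ℂ)) (x * I)‖
      ≤ 1 * ‖P (fun u => (ψ₁ u : ℂ)) (x * I)‖ :=
        mul_le_mul_of_nonneg_right h5 (norm_nonneg _)
    _ ≤ C / (1 + |x|) ^ m := by rw [one_mul]; exact h1

theorem kb_int {ψ₁ k₀ : ℝ → ℝ} (h : Ker ψ₁ k₀) : Integrable k₀ := by
  obtain ⟨C, hC, hb, -⟩ := kb_bound h 2
  refine (Pool.Agent.W182.KO.one_add_inv_sq_int.const_mul C).mono' h.cont.aestronglyMeasurable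
    (Eventually.of_forall fun x => ?_)
  rw [Real.norm_of_nonneg (h.nonneg x)]
  have := hb x
  rwa [div_eq_mul_inv] at this

theorem kb_mass {ψ₁ k₀ : ℝ → ℝ} (h : Ker ψ₁ k₀) : ∫ x : ℝ, k₀ x = 1 := by
  have h1 := Pool.Agent.W182.KO.P_inv (kb_tf h) (σ := 0) (L := 1) le_rfl one_pos 0
  have h2 : (∫ y : ℝ, P (fun u => (ψ₁ u : ℂ)) (((0 : ℝ) : ℂ) + ((1 : ℝ) : ℂ) * y * I) *
      exp (-(((0 : ℝ) : ℂ) * ((1 : ℝ) : ℂ) * y) * I)) =
      ∫ y : ℝ, P (fun u => (ψ₁ u : ℂ)) (y * I) := by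
    congr 1
    funext y
    simp
  rw [h2] at h1
  have h3 : (∫ x : ℝ, (k₀ x : ℂ)) = 1 := by
    have : (fun x : ℝ => (k₀ x : ℂ)) = fun x : ℝ =>
        ((1 / (2 * Real.pi) : ℝ) : ℂ) * P (fun u => (ψ₁ u : ℂ)) (x * I) := funext h.rep
    rw [this, integral_const_mul, h1, h.one]
    have hpi : (Real.pi : ℂ) ≠ 0 := by exact_mod_cast Real.pi_ne_zero
    push_cast
    simp only [zero_mul, exp_zero, mul_one, div_one]
    field_simp
  rw [integral_complex_ofReal] at h3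
  exact_mod_cast h3

theorem kb_lip {ψ₁ k₀ : ℝ → ℝ} (h : Ker ψ₁ k₀) :
    ∃ C : ℝ, 0 ≤ C ∧ ∀ u v : ℝ, |ψ₁ u - ψ₁ v| ≤ C * |u - v| := by
  have hcs : HasCompactSupport ψ₁ := by
    refine HasCompactSupport.intro (isCompact_Icc (a := (-1 : ℝ)) (b := 1)) fun x hx => ?_
    have h1 : 1 ≤ |x| := by
      by_contra hc
      push Not at hc
      rw [abs_lt] at hc
      exact hx ⟨hc.1.le, hc.2.le⟩
    exact h.supp x h1
  obtain ⟨C, hC⟩ := ContDiff.lipschitzWith_of_hasCompactSupport hcs h.smooth (by simp)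
  refine ⟨C, C.2, fun u v => ?_⟩
  have := hC.dist_le_mul u v
  rwa [Real.dist_eq, Real.dist_eq] at this

theorem t_KB : S_KB := fun _ _ h =>
  ⟨kb_even h, kb_int h, kb_mass h, kb_lip h, kb_bound h⟩

end

end Pool.Agent.Q177.UM
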