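import Pool.Agent.Q177.UM.TLTd
import Pool.Agent.Q14.UM.EK

set_option autoImplicit false

/-!
Project UM9 (helper97), job TLT (helper177): mean and variance of a prime sum under the tilted measure.
-/

namespace Pool.Agent.Q177.UM

open Finset
open Pool.Agent.Q97.UM
open Pool.Agent.Q14.UM
open Pool.Agent.Q299.UM

noncomputable section

/-- length of a block -/
def BL (D κ : ℝ) (l : ℕ) : ℕ := KB' D l ^ (R9 κ l + 1)

/-- length of the product of the first blocks -/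
def XL (D κ : ℝ) (J : ℕ) : ℕ := ∏ l ∈ range J, BL D κ l

theorem BL_one (D κ : ℝ) (hD : 0 ≤ D) (l : ℕ) : 1 ≤ BL D κ l := Nat.one_le_pow _ _ (KB_one D l hD)

theorem XL_succ (D κ : ℝ) (J : ℕ) : XL D κ (J + 1) = BL D κ J * XL D κ J := by
  unfold XL
  rw [prod_range_succ, mul_comm]

theorem XL_one (D κ : ℝ) (hD : 0 ≤ D) (J : ℕ) : 1 ≤ XL D κ J := by
  induction J with
  | zero => exact le_of_eq (by simp [XL])
  | succ J ih =>
    rw [XL_succ]
    exact Nat.one_le_iff_ne_zero.2 (mul_ne_zero (by have := BL_one D κ hD J; omega) (by omega))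

theorem XL_le_succ (D κ : ℝ) (hD : 0 ≤ D) (J : ℕ) : XL D κ J ≤ XL D κ (J + 1) := by
  rw [XL_succ]
  exact Nat.le_mul_of_pos_left _ (BL_one D κ hD J)

theorem BL_le (D κ : ℝ) (hD : 0 ≤ D) (J : ℕ) : BL D κ J ≤ XL D κ (J + 1) := by
  rw [XL_succ]
  exact Nat.le_mul_of_pos_right _ (XL_one D κ hD J)

/-! ### the sequences -/

/-- truncated exponential of block `l` -/
def Es (D κ : ℝ) (a a2 : ℕ → ℂ) (l : ℕ) : ℕ → ℂ := te (qb D a a2 l) (R9 κ l)

/-- centred block -/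
def Vs (D κ : ℝ) (a a2 h h2 : ℕ → ℂ) (l n : ℕ) : ℂ :=
  cv (qb D h h2 l) (Es D κ a a2 l) n + (-mub D h a l) * Es D κ a a2 l n

/-- sum of the first blocks -/
def qs (D : ℝ) (h h2 : ℕ → ℂ) (J n : ℕ) : ℂ := ∑ l ∈ range J, qb D h h2 l n

/-- the centred sum of the first blocks -/
def Ws (D κ : ℝ) (a a2 h h2 : ℕ → ℂ) (J n : ℕ) : ℂ :=
  cv (qs D h h2 J) (ebk D κ a a2 0 J) n + (-∑ l ∈ range J, mub D h a l) * ebk D κ a a2 0 J n

theorem cv_add_left (u v w : ℕ → ℂ) (n : ℕ) : cv (fun n => u n + v n) w n = cv u w n + cv v w n := by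
  unfold cv
  rw [← sum_add_distrib]
  exact sum_congr rfl fun x _ => by ring

theorem cv_mul_left (c : ℂ) (u w : ℕ → ℂ) (n : ℕ) : cv (fun n => c * u n) w n = c * cv u w n := by
  unfold cv
  rw [mul_sum]
  exact sum_congr rfl fun x _ => by ring

theorem cv_add_right (u v w : ℕ → ℂ) (n : ℕ) : cv w (fun n => u n + v n) n = cv w u n + cv w v n := by
  unfold cv
  rw [← sum_add_distrib]
  exact sum_congr rfl fun x _ => by ring

theorem cv_mul_right (c : ℂ) (u w : ℕ → ℂ) (n : ℕ) : cv w (fun n => c * u n) n = c * cv w u n := by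
  unfold cv
  rw [mul_sum]
  exact sum_congr rfl fun x _ => by ring

theorem e_succ (D κ : ℝ) (a a2 : ℕ → ℂ) (J : ℕ) :
    ebk D κ a a2 0 (J + 1) = cv (Es D κ a a2 J) (ebk D κ a a2 0 J) := ebk_succ D κ a a2 J

theorem W_succ (D κ : ℝ) (a a2 h h2 : ℕ → ℂ) (J : ℕ) :
    Ws D κ a a2 h h2 (J + 1) = fun n => cv (Es D κ a a2 J) (Ws D κ a a2 h h2 J) n + cv (Vs D κ a a2 h h2 J) (ebk D κ a a2 0 J) n := by
  funext n
  have e1 : qs D h h2 (J + 1) = fun n => qs D h h2 J n + qb D h h2 J n := by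
    funext n
    unfold qs
    rw [sum_range_succ]
  have e2 : cv (Es D κ a a2 J) (Ws D κ a a2 h h2 J) n =
      cv (Es D κ a a2 J) (cv (qs D h h2 J) (ebk D κ a a2 0 J)) n +
        (-∑ l ∈ range J, mub D h a l) * cv (Es D κ a a2 J) (ebk D κ a a2 0 J) n := by
    rw [← cv_mul_right, ← cv_add_right]
    rfl
  have e3 : cv (Vs D κ a a2 h h2 J) (ebk D κ a a2 0 J) n =
      cv (cv (qb D h h2 J) (Es D κ a a2 J)) (ebk D κ a a2 0 J) n + (-mub D h a J) * cv (Es D κ a a2 J) (ebk D κ a a2 0 J) n := by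
    rw [← cv_mul_left, ← cv_add_left]
    rfl
  rw [e2, e3]
  unfold Ws
  rw [e_succ, e1, sum_range_succ, cv_add_left, cv_left_comm (Es D κ a a2 J) (qs D h h2 J), cv_assoc (qb D h h2 J)]
  ring

/-! ### lengths and supports -/

theorem E_len (D κ : ℝ) (hD : 0 ≤ D) (a a2 : ℕ → ℂ) (l n : ℕ) (hn : KB' D l ^ R9 κ l < n) : Es D κ a a2 l n = 0 :=
  te_len _ _ _ (KB_one D l hD) (qb_len D a a2 l hD) n hn

theorem pow_le_BL (D κ : ℝ) (hD : 0 ≤ D) (l : ℕ) : KB' D l ^ R9 κ l ≤ BL D κ l :=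
  Nat.pow_le_pow_right (KB_one D l hD) (Nat.le_succ _)

theorem V_len (D κ : ℝ) (hD : 0 ≤ D) (a a2 h h2 : ℕ → ℂ) (l n : ℕ) (hn : BL D κ l < n) : Vs D κ a a2 h h2 l n = 0 := by
  unfold Vs
  rw [E_len D κ hD a a2 l n (lt_of_le_of_lt (pow_le_BL D κ hD l) hn),
    cv_len _ _ _ _ (qb_len D h h2 l hD) (fun m hm => E_len D κ hD a a2 l m hm) n (by rw [← pow_succ']; exact hn), mul_zero, add_zero]

theorem e_len (D κ : ℝ) (hD : 0 ≤ D) (a a2 : ℕ → ℂ) (J : ℕ) : ∀ n, XL D κ J < n → ebk D κ a a2 0 J n = 0 := by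
  induction J with
  | zero =>
    intro n hn
    unfold XL at hn
    unfold ebk
    simp at hn
    rw [if_neg (by omega)]
  | succ J ih =>
    rw [e_succ, XL_succ]
    exact cv_len _ _ _ _ (fun n hn => E_len D κ hD a a2 J n (lt_of_le_of_lt (pow_le_BL D κ hD J) hn)) ih

theorem W_zero (D κ : ℝ) (a a2 h h2 : ℕ → ℂ) (n : ℕ) : Ws D κ a a2 h h2 0 n = 0 := by
  unfold Ws
  have : qs D h h2 0 = fun _ => 0 := by
    funext n
    simp [qs]
  rw [this]
  simp [cv]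

theorem W_len (D κ : ℝ) (hD : 0 ≤ D) (a a2 h h2 : ℕ → ℂ) (J : ℕ) : ∀ n, XL D κ J < n → Ws D κ a a2 h h2 J n = 0 := by
  induction J with
  | zero =>
    intro n _
    exact W_zero D κ a a2 h h2 n
  | succ J ih =>
    intro n hn
    rw [W_succ]
    rw [XL_succ] at hn
    simp only
    rw [cv_len _ _ _ _ (fun n hn => E_len D κ hD a a2 J n (lt_of_le_of_lt (pow_le_BL D κ hD J) hn)) ih n hn,
      cv_len _ _ _ _ (fun n hn => V_len D κ hD a a2 h h2 J n hn) (e_len D κ hD a a2 J) n hn, add_zero]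

theorem SP_add {P : ℕ → Prop} {u v : ℕ → ℂ} (hu : SP P u) (hv : SP P v) : SP P (fun n => u n + v n) := by
  intro n hn
  by_cases h : u n = 0
  · refine hv n fun h' => hn ?_
    simp only
    rw [h, h', add_zero]
  · exact hu n h

theorem SP_mul {P : ℕ → Prop} {u : ℕ → ℂ} (c : ℂ) (hu : SP P u) : SP P (fun n => c * u n) := by
  intro n hn
  refine hu n fun h => hn ?_
  simp only
  rw [h, mul_zero]

theorem SP_E (D κ : ℝ) (a a2 : ℕ → ℂ) (l : ℕ) : SP (fun p => p ∈ PB D l) (Es D κ a a2 l) :=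
  SP_te _ _ (SP_qb D a a2 l) _

theorem SP_V (D κ : ℝ) (a a2 h h2 : ℕ → ℂ) (l : ℕ) : SP (fun p => p ∈ PB D l) (Vs D κ a a2 h h2 l) :=
  SP_add (SP_cv _ _ _ (SP_qb D h h2 l) (SP_E D κ a a2 l)) (SP_mul _ (SP_E D κ a a2 l))

theorem SP_e' (D κ : ℝ) (hD : 0 ≤ D) (a a2 : ℕ → ℂ) (J : ℕ) : SP (fun p => ¬ p ∈ PB D J) (ebk D κ a a2 0 J) := by
  intro n hn
  have := SP_ebk D κ a a2 J n hn
  refine ⟨this.1, fun p hp hpn hpJ => ?_⟩
  obtain ⟨j, hj, h⟩ := this.2 p hp hpn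
  exact hj.ne (PB_disj D hD h hpJ)

theorem SP_qs (D : ℝ) (hD : 0 ≤ D) (h h2 : ℕ → ℂ) (J i : ℕ) (hi : i ≤ J) : SP (fun p => ¬ p ∈ PB D J) (qs D h h2 i) := by
  intro n hn
  unfold qs at hn
  obtain ⟨l, hl, hl2⟩ := exists_ne_zero_of_sum_ne_zero hn
  rw [mem_range] at hl
  have := SP_qb D h h2 l n hl2
  refine ⟨this.1, fun p hp hpn hpJ => ?_⟩
  have h3 := PB_disj D hD (this.2 p hp hpn) hpJ
  omega

theorem SP_W (D κ : ℝ) (hD : 0 ≤ D) (a a2 h h2 : ℕ → ℂ) (J : ℕ) : SP (fun p => ¬ p ∈ PB D J) (Ws D κ a a2 h h2 J) :=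
  SP_add (SP_cv _ _ _ (SP_qs D hD h h2 J J le_rfl) (SP_e' D κ hD a a2 J)) (SP_mul _ (SP_e' D κ hD a a2 J))

/-! ### the induction -/

theorem ind (D κ : ℝ) (hD : 0 ≤ D) (a a2 h h2 : ℕ → ℂ) (N : ℕ) (ε : ℕ → ℝ) (c4 : ℝ) (hc4 : 0 ≤ c4) (J : ℕ) :
    (∀ l < J, 1 ≤ N2 N (Es D κ a a2 l)) → (∀ l < J, ‖ip N (Vs D κ a a2 h h2 l) (Es D κ a a2 l)‖ ≤ ε l) →
    (∀ l < J, N2 N (Vs D κ a a2 h h2 l) ≤ c4) → XL D κ J ≤ N →
    ‖ip N (Ws D κ a a2 h h2 J) (ebk D κ a a2 0 J)‖ ≤ (∑ l ∈ range J, ε l) * N2 N (ebk D κ a a2 0 J) ∧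
    N2 N (Ws D κ a a2 h h2 J) ≤ ((J : ℝ) * c4 + (∑ l ∈ range J, ε l) ^ 2) * N2 N (ebk D κ a a2 0 J) := by
  induction J with
  | zero =>
    intro _ _ _ _
    have e1 : Ws D κ a a2 h h2 0 = fun _ => 0 := funext fun n => W_zero D κ a a2 h h2 n
    rw [e1]
    have h1 := N2_nonneg N (ebk D κ a a2 0 0)
    constructor
    · simp [ip]
    · simp [N2]
  | succ J ih =>
    intro hE hm hv hN
    obtain ⟨ih1, ih2⟩ := ih (fun l hl => hE l (by omega)) (fun l hl => hm l (by omega)) (fun l hl => hv l (by omega))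
      ((XL_le_succ D κ hD J).trans hN)
    have hE := hE J (Nat.lt_succ_self J)
    have hm := hm J (Nat.lt_succ_self J)
    have hv := hv J (Nat.lt_succ_self J)
    obtain ⟨S, hS⟩ : ∃ S : ℝ, S = ∑ l ∈ range J, ε l := ⟨_, rfl⟩
    have hE1 := SP_E D κ a a2 J
    have hV1 := SP_V D κ a a2 h h2 J
    have he1 := SP_e' D κ hD a a2 J
    have hW1 := SP_W D κ hD a a2 h h2 J
    have lE : ∀ n, BL D κ J < n → Es D κ a a2 J n = 0 := fun n hn => E_len D κ hD a a2 J n (lt_of_le_of_lt (pow_le_BL D κ hD J) hn)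
    have lV : ∀ n, BL D κ J < n → Vs D κ a a2 h h2 J n = 0 := fun n hn => V_len D κ hD a a2 h h2 J n hn
    have le := e_len D κ hD a a2 J
    have lW := W_len D κ hD a a2 h h2 J
    have b1 := BL_one D κ hD J
    have b2 := XL_one D κ hD J
    rw [XL_succ] at hN
    rw [W_succ, e_succ, sum_range_succ, ← hS]
    rw [← hS] at ih1 ih2
    obtain ⟨E, hEE⟩ : ∃ E : ℕ → ℂ, E = Es D κ a a2 J := ⟨_, rfl⟩
    obtain ⟨V, hVV⟩ : ∃ V : ℕ → ℂ, V = Vs D κ a a2 h h2 J := ⟨_, rfl⟩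
    obtain ⟨e, hee⟩ : ∃ e : ℕ → ℂ, e = ebk D κ a a2 0 J := ⟨_, rfl⟩
    obtain ⟨W, hWW⟩ : ∃ W : ℕ → ℂ, W = Ws D κ a a2 h h2 J := ⟨_, rfl⟩
    rw [← hEE] at hE1 lE hE hm ⊢
    rw [← hVV] at hV1 lV hm hv ⊢
    rw [← hee] at he1 le ih1 ih2 ⊢
    rw [← hWW] at hW1 lW ih1 ih2 ⊢
    have a1 : N2 N (cv E e) = N2 N E * N2 N e := N2_mul _ E e hE1 he1 _ _ N lE le hN b1 b2
    have a2' : N2 N (cv E W) = N2 N E * N2 N W := N2_mul _ E W hE1 hW1 _ _ N lE lW hN b1 b2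
    have a3 : N2 N (cv V e) = N2 N V * N2 N e := N2_mul _ V e hV1 he1 _ _ N lV le hN b1 b2
    have a4 : ip N (cv E W) (cv E e) = (N2 N E : ℂ) * ip N W e := by
      rw [ip_mul _ E E W e hE1 hE1 hW1 he1 _ _ N lE lW hN b1 b2, ip_self]
    have a5 : ip N (cv V e) (cv E e) = ip N V E * (N2 N e : ℂ) := by
      rw [ip_mul _ V E e e hV1 hE1 he1 he1 _ _ N lV le hN b1 b2, ip_self]
    have a6 : ip N (cv E W) (cv V e) = ip N E V * ip N W e := ip_mul _ E V W e hE1 hV1 hW1 he1 _ _ N lE lW hN b1 b2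
    have g1 := N2_nonneg N e
    have g2 := N2_nonneg N W
    have g3 := N2_nonneg N V
    have g4 := norm_nonneg (ip N V E)
    have hε : 0 ≤ ε J := g4.trans hm
    have g5 := norm_nonneg (ip N W e)
    have g6 : N2 N e ≤ N2 N E * N2 N e := by nlinarith
    have g7 : 0 ≤ N2 N E * N2 N e := by nlinarith
    have hEV : ‖ip N E V‖ = ‖ip N V E‖ := by rw [ip_conj N V E, RCLike.norm_conj]
    constructor
    · rw [ip_add, a4, a5, a1]
      refine (norm_add_le _ _).trans ?_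
      rw [norm_mul, norm_mul, Complex.norm_real, Complex.norm_real, Real.norm_eq_abs, Real.norm_eq_abs, abs_of_nonneg (by linarith), abs_of_nonneg g1]
      have k1 : N2 N E * ‖ip N W e‖ ≤ N2 N E * (S * N2 N e) := mul_le_mul_of_nonneg_left ih1 (by linarith)
      have k2 : ‖ip N V E‖ * N2 N e ≤ ε J * (N2 N E * N2 N e) := mul_le_mul hm g6 g1 hε
      calc N2 N E * ‖ip N W e‖ + ‖ip N V E‖ * N2 N e ≤ N2 N E * (S * N2 N e) + ε J * (N2 N E * N2 N e) := add_le_add k1 k2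
        _ = (S + ε J) * (N2 N E * N2 N e) := by ring
    · rw [N2_add, a2', a3, a6, a1]
      have k1 : N2 N E * N2 N W ≤ N2 N E * (((J : ℝ) * c4 + S ^ 2) * N2 N e) := mul_le_mul_of_nonneg_left ih2 (by linarith)
      have k2 : N2 N V * N2 N e ≤ c4 * (N2 N E * N2 N e) := mul_le_mul hv g6 g1 hc4
      have k3 : (ip N E V * ip N W e).re ≤ ε J * S * (N2 N E * N2 N e) := by
        refine (Complex.re_le_norm _).trans ?_
        rw [norm_mul, hEV]
        have k4 : ‖ip N V E‖ * ‖ip N W e‖ ≤ ε J * (S * N2 N e) := mul_le_mul hm ih1 g5 hε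
        have k5 : 0 ≤ S * N2 N e := g5.trans ih1
        have k6 : S * N2 N e ≤ N2 N E * (S * N2 N e) := by nlinarith
        have k7 : ε J * (S * N2 N e) ≤ ε J * (N2 N E * (S * N2 N e)) := mul_le_mul_of_nonneg_left k6 hε
        refine k4.trans (k7.trans (le_of_eq ?_))
        ring
      have k8 : 0 ≤ ε J ^ 2 * (N2 N E * N2 N e) := by positivity
      push_cast
      calc N2 N E * N2 N W + N2 N V * N2 N e + 2 * (ip N E V * ip N W e).re
          ≤ N2 N E * (((J : ℝ) * c4 + S ^ 2) * N2 N e) + c4 * (N2 N E * N2 N e) + 2 * (ε J * S * (N2 N E * N2 N e)) + ε J ^ 2 * (N2 N E * N2 N e) := by linarith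
        _ = (((J : ℝ) + 1) * c4 + (S + ε J) ^ 2) * (N2 N E * N2 N e) := by ring

/-! ### sums -/

theorem R9_ge (κ : ℝ) (hκ : 4 ≤ κ) (l : ℕ) : 4 + (l : ℝ) ≤ R9 κ l := by
  have h1 : κ * Real.exp (9 / 10 * (l : ℝ)) ≤ R9 κ l := Nat.le_ceil _
  have h2 := Real.add_one_le_exp (9 / 10 * (l : ℝ))
  have hl : (0 : ℝ) ≤ l := Nat.cast_nonneg l
  have h3 : κ * (9 / 10 * (l : ℝ) + 1) ≤ κ * Real.exp (9 / 10 * (l : ℝ)) := mul_le_mul_of_nonneg_left h2 (by linarith)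
  nlinarith

theorem sum_expR (κ : ℝ) (hκ : 4 ≤ κ) (J : ℕ) : ∑ l ∈ range J, Real.exp (-(R9 κ l : ℝ)) ≤ 2 := by
  have h1 : ∀ l ∈ range J, Real.exp (-(R9 κ l : ℝ)) ≤ (1 / 2 : ℝ) ^ l := by
    intro l _
    have h2 := R9_ge κ hκ l
    have h3 : Real.exp (-(R9 κ l : ℝ)) ≤ Real.exp (-(1 * (l : ℝ))) := by
      apply Real.exp_le_exp.2
      linarith
    refine h3.trans (exp_neg_mul_nat 1 (1 / 2) ?_ l)
    have := exp_neg_le 1 (by norm_num)
    linarith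
  refine (sum_le_sum h1).trans ?_
  have := geo_le (1 / 2) (by norm_num) (by norm_num) J
  linarith

theorem sum_sq (D : ℝ) (hD : 1 ≤ D) : ∑ l ∈ range (JB D), ∑ p ∈ PB D l, 1 / (p : ℝ) ^ 2 ≤ 2 := by
  rw [← sum_biUnion, ← PB_union D hD]
  · exact (sum_le_sum_of_subset_of_nonneg (filter_subset _ _) (fun p _ _ => by positivity)).trans (sum_inv_sq _)
  · intro i _ j _ hij
    rw [Function.onFun, disjoint_left]
    intro p hp hp'
    exact hij (PB_disj D (by linarith) hp hp')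

theorem mu_eq (D : ℝ) (hD : 1 ≤ D) (h a : ℕ → ℂ) : mu D h a = ∑ l ∈ range (JB D), mub D h a l := by
  unfold mu mub
  rw [PB_union D hD, sum_biUnion]
  intro i _ j _ hij
  rw [Function.onFun, disjoint_left]
  intro p hp hp'
  exact hij (PB_disj D (by linarith) hp hp')

theorem N2_mono (b : ℕ → ℂ) {M N : ℕ} (h : M ≤ N) : N2 M b ≤ N2 N b := by
  unfold N2
  exact sum_le_sum_of_subset_of_nonneg (Icc_subset_Icc_right h) (fun n _ _ => by positivity)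

theorem JB_le (D : ℝ) (hD : 1 ≤ D) : (JB D : ℝ) ≤ 2 + Real.log D := by
  unfold JB
  have h1 : 0 ≤ Real.log (2 * D) := Real.log_nonneg (by linarith)
  have h2 := (Nat.ceil_lt_add_one h1).le
  rw [Real.log_mul (by norm_num) (by linarith)] at h2
  have h3 := Real.log_two_lt_d9
  rw [Real.log_mul (by norm_num) (by linarith)]
  linarith

theorem C4_nonneg (CB A : ℝ) : 0 ≤ C4 CB A := by
  unfold C4
  have h1 := KK_pos CB A
  have h2 := KK_pos CB (2 * A)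
  positivity

theorem t_TLT : J_TLT := by
  intro hBM hCOF A hA
  obtain ⟨CB, hCB1, hCB⟩ := hBM
  have hA0 : 0 ≤ A := by linarith
  have hCB0 : 0 ≤ CB := by linarith
  refine ⟨4, le_rfl, fun κ hκ => ?_⟩
  have hC3 := C3_nonneg (CB := CB) hA0 hCB0
  have hC4 := C4_nonneg CB A
  refine ⟨2 * C4 CB A + (4 * C3 CB A) ^ 2, by positivity, ?_⟩
  intro D hD a a2 h h2 ha ha2 hh hh2
  have hD0 : 0 ≤ D := by linarith
  obtain ⟨N, hN⟩ : ∃ N : ℕ, N = max (⌊Real.exp D⌋₊ ^ 2 * M9 D κ) (XL D κ (JB D)) := ⟨_, rfl⟩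
  have hN1 : ⌊Real.exp D⌋₊ ^ 2 * M9 D κ ≤ N := by rw [hN]; exact le_max_left _ _
  have hN2 : XL D κ (JB D) ≤ N := by rw [hN]; exact le_max_right _ _
  have hN0 : 1 ≤ N := (XL_one D κ hD0 _).trans hN2
  obtain ⟨ε, hε⟩ : ∃ ε : ℕ → ℝ, ε = fun l => C3 CB A * (Real.exp (-(R9 κ l : ℝ)) + ∑ p ∈ PB D l, 1 / (p : ℝ) ^ 2) := ⟨_, rfl⟩
  have hXL : ∀ l < JB D, XL D κ (l + 1) ≤ N := by
    intro l hl
    refine le_trans ?_ hN2
    exact monotone_nat_of_le_succ (fun J => XL_le_succ D κ hD0 J) (by omega)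
  have hR : ∀ l, ∃ R : ℕ, R9 κ l = R + 2 := by
    intro l
    have h3 := R9_ge κ hκ l
    have h4 : 2 ≤ R9 κ l := by
      have : (2 : ℝ) ≤ R9 κ l := by
        have hl : (0 : ℝ) ≤ l := Nat.cast_nonneg l
        linarith
      exact_mod_cast this
    exact ⟨R9 κ l - 2, by omega⟩
  have hI := ind D κ hD0 a a2 h h2 N ε (C4 CB A) hC4 (JB D)
    (fun l _ => te_ge_one D l a a2 (R9 κ l) N hN0)
    (fun l hl => by
      obtain ⟨R, hR⟩ := hR l
      have g1 := blk_mean D l hA hCB0 (hCB D l hD) a a2 h h2 ha ha2 hh hh2 R (KB' D l ^ (R + 2)) N ?_ ?_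
      · rw [hε]
        unfold Vs Es
        simp only
        rw [hR]
        push_cast
        exact g1
      · intro n hn
        have := E_len D κ hD0 a a2 l n (by rw [hR]; exact hn)
        unfold Es at this
        rw [hR] at this
        exact this
      · intro p hp
        refine le_trans ?_ ((BL_le D κ hD0 l).trans (hXL l hl))
        unfold BL
        rw [hR, pow_succ (KB' D l) (R + 2), mul_comm]
        refine Nat.mul_le_mul_left _ ?_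
        have h3 : p ≤ ⌊XB D l⌋₊ := (Nat.le_floor_iff (XB_pos D l).le).2 (mem_PB hp).2.2
        unfold KB'
        nlinarith [floorXB D l hD0])
    (fun l _ => blk_var D l hA hCB0 (hCB D l hD) a a2 h h2 ha ha2 hh hh2 (R9 κ l) N) hN2
  have hS : ∑ l ∈ range (JB D), ε l ≤ 4 * C3 CB A := by
    rw [hε]
    simp only
    rw [← mul_sum, sum_add_distrib]
    have h3 := sum_expR κ hκ (JB D)
    have h4 := sum_sq D hD
    nlinarith
  have hS0 : 0 ≤ ∑ l ∈ range (JB D), ε l := by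
    refine sum_nonneg fun l _ => ?_
    rw [hε]
    simp only
    exact mul_nonneg hC3 (add_nonneg (Real.exp_pos _).le (sum_nonneg fun p _ => by positivity))
  have hfin : (fun n => cv (qall D h h2) (ebk D κ a a2 0 (JB D)) n - mu D h a * ebk D κ a a2 0 (JB D) n) = Ws D κ a a2 h h2 (JB D) := by
    funext n
    unfold Ws
    rw [← mu_eq D hD]
    have : qall D h h2 = qs D h h2 (JB D) := rfl
    rw [this]
    ring
  rw [hfin]
  refine (N2_mono _ hN1).trans (hI.2.trans ?_)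
  have hlog : 0 ≤ Real.log D := Real.log_nonneg hD
  have hJB := JB_le D hD
  have hsupp : N2 N (ebk D κ a a2 0 (JB D)) ≤ N2 (M9 D κ) (ebk D κ a a2 0 (JB D)) := by
    refine N2_le_of_supp _ N (M9 D κ) fun n hn => ?_
    by_contra hne
    have := (hCOF κ D (by linarith) hD a a2 a a2 0 0).1 n hne
    omega
  have g0 := N2_nonneg N (ebk D κ a a2 0 (JB D))
  have g1 : (JB D : ℝ) * C4 CB A + (∑ l ∈ range (JB D), ε l) ^ 2 ≤ (2 * C4 CB A + (4 * C3 CB A) ^ 2) * (1 + Real.log D) := by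
    have g2 : (∑ l ∈ range (JB D), ε l) ^ 2 ≤ (4 * C3 CB A) ^ 2 := pow_le_pow_left₀ hS0 hS 2
    have g3 : (JB D : ℝ) * C4 CB A ≤ (2 + Real.log D) * C4 CB A := mul_le_mul_of_nonneg_right hJB hC4
    have g4 : 0 ≤ C4 CB A * Real.log D := mul_nonneg hC4 hlog
    have g5 : 0 ≤ (4 * C3 CB A) ^ 2 * Real.log D := mul_nonneg (sq_nonneg _) hlog
    linarith
  exact mul_le_mul g1 hsupp g0 (by positivity)

end

end Pool.Agent.Q177.UM
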