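import Pool.Agent.Q97.UM.Stm16
import Pool.Agent.Q97.UM.Cv
import Pool.Agent.Q14.UM.EL
import Pool.Agent.Q299.UM.EN2

set_option autoImplicit false

/-!
Project UM9 (helper97), job TLT (helper177), part 1: inner products of sequences, factorization over coprime supports, shifts.
-/

namespace Pool.Agent.Q177.UM

open Finset
open Pool.Agent.Q97.UM
open Pool.Agent.Q14.UM

noncomputable section

/-- inner product -/
def ip (N : ℕ) (b c : ℕ → ℂ) : ℂ := ∑ n ∈ Icc 1 N, b n * (starRingEnd ℂ) (c n) / (n : ℂ)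

theorem ip_self (N : ℕ) (b : ℕ → ℂ) : ip N b b = (N2 N b : ℂ) := by
  unfold ip N2
  push_cast
  refine sum_congr rfl fun n _ => ?_
  rw [Complex.mul_conj, Complex.normSq_eq_norm_sq]
  push_cast
  rfl

theorem N2_nonneg (N : ℕ) (b : ℕ → ℂ) : 0 ≤ N2 N b := by
  unfold N2
  positivity

theorem ip_add (N : ℕ) (b c d : ℕ → ℂ) : ip N (fun n => b n + c n) d = ip N b d + ip N c d := by
  unfold ip
  rw [← sum_add_distrib]
  refine sum_congr rfl fun n _ => ?_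
  ring

theorem ip_conj (N : ℕ) (b c : ℕ → ℂ) : ip N c b = (starRingEnd ℂ) (ip N b c) := by
  unfold ip
  rw [map_sum]
  refine sum_congr rfl fun n _ => ?_
  rw [map_div₀, map_mul, Complex.conj_conj, Complex.conj_natCast]
  ring

theorem N2_add (N : ℕ) (b c : ℕ → ℂ) : N2 N (fun n => b n + c n) = N2 N b + N2 N c + 2 * (ip N b c).re := by
  have h1 : ((N2 N (fun n => b n + c n) : ℝ) : ℂ) = ((N2 N b + N2 N c + 2 * (ip N b c).re : ℝ) : ℂ) := by
    rw [← ip_self, ip_add]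
    have e : ∀ d : ℕ → ℂ, ip N d (fun n => b n + c n) = ip N d b + ip N d c := by
      intro d
      unfold ip
      rw [← sum_add_distrib]
      refine sum_congr rfl fun n _ => ?_
      rw [map_add]
      ring
    rw [e, e, ip_self, ip_self, ip_conj N b c]
    have e2 : ip N b c + (starRingEnd ℂ) (ip N b c) = ((2 * (ip N b c).re : ℝ) : ℂ) := Complex.add_conj _
    push_cast at e2 ⊢
    linear_combination e2
  exact_mod_cast h1

theorem N2_le_two (N : ℕ) (b c : ℕ → ℂ) : N2 N (fun n => b n + c n) ≤ 2 * N2 N b + 2 * N2 N c := by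
  unfold N2
  rw [mul_sum, mul_sum, ← sum_add_distrib]
  refine sum_le_sum fun n _ => ?_
  have h1 : ‖b n + c n‖ ^ 2 ≤ 2 * ‖b n‖ ^ 2 + 2 * ‖c n‖ ^ 2 := by
    have := norm_add_le (b n) (c n)
    have h2 := norm_nonneg (b n + c n)
    nlinarith [sq_nonneg (‖b n‖ - ‖c n‖)]
  rw [← mul_div_assoc, ← mul_div_assoc, ← add_div]
  gcongr

theorem N2_mul_const (N : ℕ) (z : ℂ) (b : ℕ → ℂ) : N2 N (fun n => z * b n) = ‖z‖ ^ 2 * N2 N b := by
  unfold N2
  rw [mul_sum]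
  refine sum_congr rfl fun n _ => ?_
  rw [norm_mul]
  ring

theorem ip_norm_le (N : ℕ) (b c : ℕ → ℂ) : ‖ip N b c‖ ≤ ∑ n ∈ Icc 1 N, ‖b n‖ * ‖c n‖ / (n : ℝ) := by
  unfold ip
  refine (norm_sum_le _ _).trans (le_of_eq (sum_congr rfl fun n _ => ?_))
  rw [norm_div, norm_mul, RCLike.norm_conj, Complex.norm_natCast]

/-- factorization -/
theorem ip_mul (P : ℕ → Prop) (u u' v v' : ℕ → ℂ) (hu : SP P u) (hu' : SP P u') (hv : SP (fun p => ¬ P p) v)
    (hv' : SP (fun p => ¬ P p) v') (X Y N : ℕ) (hX : ∀ n, X < n → u n = 0) (hY : ∀ n, Y < n → v n = 0)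
    (hN : X * Y ≤ N) (hX1 : 1 ≤ X) (hY1 : 1 ≤ Y) : ip N (cv u v) (cv u' v') = ip N u u' * ip N v v' := by
  classical
  have cop : ∀ (a b : ℕ → ℂ), SP P a → SP (fun p => ¬ P p) b → ∀ x y, a x ≠ 0 → b y ≠ 0 → Nat.Coprime x y := by
    intro a b ha hb x y hx hy
    by_contra hc
    obtain ⟨p, hp, h1, h2⟩ := Nat.Prime.not_coprime_iff_dvd.1 hc
    exact (hb y hy).2 p hp h2 ((ha x hx).2 p hp h1)
  have hXN : X ≤ N := (Nat.le_mul_of_pos_right X hY1).trans hN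
  have hYN : Y ≤ N := (Nat.le_mul_of_pos_left Y hX1).trans hN
  obtain ⟨F, hF⟩ : ∃ F : Finset (ℕ × ℕ), F = (Icc 1 X ×ˢ Icc 1 Y).filter
    (fun z => (u z.1 ≠ 0 ∧ u' z.1 ≠ 0) ∧ (v z.2 ≠ 0 ∧ v' z.2 ≠ 0)) := ⟨_, rfl⟩
  have r1 : ip N u u' * ip N v v' = ∑ z ∈ F, (u z.1 * (starRingEnd ℂ) (u' z.1) / (z.1 : ℂ)) * (v z.2 * (starRingEnd ℂ) (v' z.2) / (z.2 : ℂ)) := by
    unfold ip
    rw [sum_mul_sum, ← sum_product']
    symm
    refine sum_subset ?_ ?_
    · intro z hz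
      rw [hF, mem_filter, mem_product, mem_Icc, mem_Icc] at hz
      rw [mem_product, mem_Icc, mem_Icc]
      omega
    · intro z hz hzF
      rw [mem_product, mem_Icc, mem_Icc] at hz
      by_contra h
      apply hzF
      have h1 := left_ne_zero_of_mul h
      have h2 := right_ne_zero_of_mul h
      have a1 : u z.1 ≠ 0 := fun h => h1 (by rw [h]; simp)
      have a2 : u' z.1 ≠ 0 := fun h => h1 (by rw [h]; simp)
      have a3 : v z.2 ≠ 0 := fun h => h2 (by rw [h]; simp)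
      have a4 : v' z.2 ≠ 0 := fun h => h2 (by rw [h]; simp)
      rw [hF, mem_filter, mem_product, mem_Icc, mem_Icc]
      refine ⟨⟨⟨hz.1.1, ?_⟩, ⟨hz.2.1, ?_⟩⟩, ⟨a1, a2⟩, ⟨a3, a4⟩⟩
      · by_contra hc
        exact a1 (hX _ (by omega))
      · by_contra hc
        exact a3 (hY _ (by omega))
  rw [r1]
  have r2 : ∀ z ∈ F, (u z.1 * (starRingEnd ℂ) (u' z.1) / (z.1 : ℂ)) * (v z.2 * (starRingEnd ℂ) (v' z.2) / (z.2 : ℂ)) =
      cv u v (z.1 * z.2) * (starRingEnd ℂ) (cv u' v' (z.1 * z.2)) / ((z.1 * z.2 : ℕ) : ℂ) := by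
    intro z hz
    rw [hF, mem_filter] at hz
    rw [cv_coprime u v P hu hv z.1 z.2 hz.2.1.1 hz.2.2.1, cv_coprime u' v' P hu' hv' z.1 z.2 hz.2.1.2 hz.2.2.2, map_mul]
    push_cast
    have d1 : (z.1 : ℂ) ≠ 0 := by exact_mod_cast (hu z.1 hz.2.1.1).1
    have d2 : (z.2 : ℂ) ≠ 0 := by exact_mod_cast (hv z.2 hz.2.2.1).1
    field_simp
  rw [sum_congr rfl r2]
  have r3 : ∑ z ∈ F, cv u v (z.1 * z.2) * (starRingEnd ℂ) (cv u' v' (z.1 * z.2)) / ((z.1 * z.2 : ℕ) : ℂ) =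
      ∑ n ∈ F.image (fun z => z.1 * z.2), cv u v n * (starRingEnd ℂ) (cv u' v' n) / (n : ℂ) := by
    rw [sum_image]
    rintro ⟨d, e⟩ hz ⟨d', e'⟩ hz' heq
    rw [mem_coe, hF, mem_filter] at hz hz'
    simp only at hz hz' heq
    have e1 : d ∣ d' := by
      have : d ∣ d' * e' := ⟨e, heq.symm⟩
      exact (cop u v hu hv _ _ hz.2.1.1 hz'.2.2.1).dvd_of_dvd_mul_right this
    have e2 : d' ∣ d := by
      have : d' ∣ d * e := ⟨e', heq⟩
      exact (cop u v hu hv _ _ hz'.2.1.1 hz.2.2.1).dvd_of_dvd_mul_right this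
    have e3 : d = d' := Nat.dvd_antisymm e1 e2
    subst e3
    have e4 : e = e' := Nat.eq_of_mul_eq_mul_left (Nat.pos_of_ne_zero (hu d hz.2.1.1).1) heq
    rw [e4]
  rw [r3]
  unfold ip
  symm
  refine sum_subset ?_ ?_
  · intro n hn
    obtain ⟨z, hz, rfl⟩ := mem_image.1 hn
    rw [hF, mem_filter, mem_product, mem_Icc, mem_Icc] at hz
    rw [mem_Icc]
    exact ⟨Nat.one_le_iff_ne_zero.2 (mul_ne_zero (by omega) (by omega)), (Nat.mul_le_mul hz.1.1.2 hz.1.2.2).trans hN⟩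
  · intro n hn hnF
    by_contra h
    apply hnF
    have h1 : cv u v n ≠ 0 := fun h' => h (by rw [h']; simp)
    have h2 : cv u' v' n ≠ 0 := fun h' => h (by rw [h']; simp)
    obtain ⟨k, l, e1, hn0, a1, a2⟩ := cv_supp h1
    obtain ⟨k', l', e2, -, a3, a4⟩ := cv_supp h2
    have d1 : k ∣ k' := by
      have : k ∣ k' * l' := ⟨l, by rw [e1, e2]⟩
      exact (cop u v' hu hv' _ _ a1 a4).dvd_of_dvd_mul_right this
    have d2 : k' ∣ k := by
      have : k' ∣ k * l := ⟨l', by rw [e1, e2]⟩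
      exact (cop u' v hu' hv _ _ a3 a2).dvd_of_dvd_mul_right this
    have d3 : k = k' := Nat.dvd_antisymm d1 d2
    subst d3
    have d4 : l = l' := by
      refine Nat.eq_of_mul_eq_mul_left (Nat.pos_of_ne_zero (hu k a1).1) ?_
      rw [e1, e2]
    subst d4
    rw [mem_image]
    refine ⟨(k, l), ?_, e1⟩
    rw [hF, mem_filter, mem_product, mem_Icc, mem_Icc]
    refine ⟨⟨⟨Nat.one_le_iff_ne_zero.2 (hu k a1).1, ?_⟩, ⟨Nat.one_le_iff_ne_zero.2 (hv l a2).1, ?_⟩⟩, ⟨a1, a3⟩, ⟨a2, a4⟩⟩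
    · by_contra hc
      exact a1 (hX _ (by simp only at hc; omega))
    · by_contra hc
      exact a2 (hY _ (by simp only at hc; omega))

theorem N2_mul (P : ℕ → Prop) (u v : ℕ → ℂ) (hu : SP P u) (hv : SP (fun p => ¬ P p) v) (X Y N : ℕ)
    (hX : ∀ n, X < n → u n = 0) (hY : ∀ n, Y < n → v n = 0) (hN : X * Y ≤ N) (hX1 : 1 ≤ X) (hY1 : 1 ≤ Y) :
    N2 N (cv u v) = N2 N u * N2 N v := by
  have h := ip_mul P u u v v hu hu hv hv X Y N hX hY hN hX1 hY1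
  rw [ip_self, ip_self, ip_self] at h
  exact_mod_cast h

/-! ### shifts -/

theorem sum_shift (m N : ℕ) (hm : 1 ≤ m) (f : ℕ → ℝ) :
    ∑ n ∈ (Icc 1 N).filter (fun n => m ∣ n), f (n / m) / (n : ℝ) = (1 / (m : ℝ)) * ∑ k ∈ Icc 1 (N / m), f k / (k : ℝ) := by
  have h1 : (Icc 1 N).filter (fun n => m ∣ n) = (Icc 1 (N / m)).image (fun k => m * k) := by
    ext n
    simp only [mem_filter, mem_Icc, mem_image]
    constructor
    · rintro ⟨⟨a1, a2⟩, k, rfl⟩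
      refine ⟨k, ⟨?_, ?_⟩, rfl⟩
      · by_contra hc
        have : k = 0 := by omega
        rw [this] at a1
        omega
      · rw [Nat.le_div_iff_mul_le hm, mul_comm]
        exact a2
    · rintro ⟨k, ⟨a1, a2⟩, rfl⟩
      rw [Nat.le_div_iff_mul_le hm, mul_comm] at a2
      exact ⟨⟨Nat.mul_pos hm a1, a2⟩, Dvd.intro _ rfl⟩
  rw [h1, sum_image, mul_sum]
  · refine sum_congr rfl fun k _ => ?_
    rw [Nat.mul_div_cancel_left _ hm]
    push_cast
    rw [div_mul_div_comm, one_mul]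
  · intro k _ k' _ h
    exact Nat.eq_of_mul_eq_mul_left hm h

theorem sum_shift_le (m N : ℕ) (hm : 1 ≤ m) (f : ℕ → ℝ) (hf : ∀ n, 0 ≤ f n) :
    ∑ n ∈ (Icc 1 N).filter (fun n => m ∣ n), f (n / m) / (n : ℝ) ≤ (1 / (m : ℝ)) * ∑ k ∈ Icc 1 N, f k / (k : ℝ) := by
  rw [sum_shift m N hm f]
  refine mul_le_mul_of_nonneg_left ?_ (by positivity)
  refine sum_le_sum_of_subset_of_nonneg (Icc_subset_Icc_right (Nat.div_le_self _ _)) fun k _ _ => ?_
  exact div_nonneg (hf k) (Nat.cast_nonneg k)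

end

end Pool.Agent.Q177.UM
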