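import Pool.Agent.Q177.UM.TLTa
import Pool.Agent.Q14.UM.EK

set_option autoImplicit false

/-!
Project UM9 (helper97), job TLT (helper177), part 2: the derivation at a prime, truncated exponentials.
-/

namespace Pool.Agent.Q177.UM

open Finset
open Pool.Agent.Q97.UM
open Pool.Agent.Q14.UM

noncomputable section

/-- the derivation at `p` -/
def Lm (p : ℕ) (F : ArithmeticFunction ℂ) : ArithmeticFunction ℂ := ⟨fun n => (n.factorization p : ℂ) * F n, by simp⟩

theorem Lm_apply (p : ℕ) (F : ArithmeticFunction ℂ) (n : ℕ) : Lm p F n = (n.factorization p : ℂ) * F n := rfl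

theorem Lm_mul (p : ℕ) (F G : ArithmeticFunction ℂ) : Lm p (F * G) = Lm p F * G + F * Lm p G := by
  ext n
  rw [ArithmeticFunction.add_apply, Lm_apply, ArithmeticFunction.mul_apply, ArithmeticFunction.mul_apply,
    ArithmeticFunction.mul_apply, mul_sum, ← sum_add_distrib]
  refine sum_congr rfl fun x hx => ?_
  rw [Nat.mem_divisorsAntidiagonal] at hx
  have h1 : x.1 ≠ 0 := fun h => hx.2 (by rw [← hx.1, h, zero_mul])
  have h2 : x.2 ≠ 0 := fun h => hx.2 (by rw [← hx.1, h, mul_zero])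
  have h3 : n.factorization p = x.1.factorization p + x.2.factorization p := by
    rw [← hx.1, Nat.factorization_mul h1 h2]
    rfl
  rw [Lm_apply, Lm_apply, h3]
  push_cast
  ring

theorem Lm_pow (p : ℕ) (Q : ArithmeticFunction ℂ) (r n : ℕ) :
    Lm p (Q ^ (r + 1)) n = ((r : ℂ) + 1) * (Lm p Q * Q ^ r) n := by
  induction r generalizing n with
  | zero =>
    rw [zero_add, pow_one, pow_zero, mul_one]
    simp
  | succ r ih =>
    have h1 : Lm p (Q ^ (r + 1 + 1)) = Lm p (Q ^ (r + 1)) * Q + Q ^ (r + 1) * Lm p Q := by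
      rw [pow_succ Q (r + 1), Lm_mul]
    have h2 : (Lm p (Q ^ (r + 1)) * Q) n = ((r : ℂ) + 1) * (Lm p Q * Q ^ r * Q) n := by
      rw [ArithmeticFunction.mul_apply, ArithmeticFunction.mul_apply, mul_sum]
      refine sum_congr rfl fun x _ => ?_
      rw [ih]
      ring
    rw [h1, ArithmeticFunction.add_apply, h2]
    have h3 : Lm p Q * Q ^ r * Q = Lm p Q * Q ^ (r + 1) := by rw [mul_assoc, ← pow_succ]
    rw [h3, mul_comm (Q ^ (r + 1)) (Lm p Q)]
    push_cast
    ring

theorem tA_zero_eq (q : ℕ → ℂ) (h0 : q 0 = 0) (n : ℕ) : tA q n = q n := by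
  rcases eq_or_ne n 0 with h | h
  · rw [h, h0, ArithmeticFunction.map_zero]
  · exact tA_apply q h

theorem cvp_zero (q : ℕ → ℂ) (r : ℕ) : cvp q r 0 = 0 := by
  cases r with
  | zero => simp [cvp]
  | succ r => exact cv_zero _ _

theorem cvp_eq (q : ℕ → ℂ) (r : ℕ) : ∀ n, cvp q r n = (tA q ^ r) n := by
  induction r with
  | zero =>
    intro n
    rw [pow_zero, ArithmeticFunction.one_apply]
    rfl
  | succ r ih =>
    intro n
    have h1 : tA (cvp q r) = tA q ^ r := by
      ext m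
      rw [tA_zero_eq _ (cvp_zero q r), ih]
    show cv q (cvp q r) n = _
    rw [cv_eq, h1, pow_succ']

theorem te_zero (q : ℕ → ℂ) (R : ℕ) : te q R 0 = 0 := by
  unfold te
  refine sum_eq_zero fun r _ => ?_
  rw [cvp_zero, zero_div]

/-- the identity of the derivation -/
theorem te_der (p : ℕ) (q : ℕ → ℂ) (R n : ℕ) : (n.factorization p : ℂ) * te q (R + 1) n = cv (Lm p (tA q)) (te q R) n := by
  have h1 : ∀ r : ℕ, (n.factorization p : ℂ) * (cvp q (r + 1) n / ((r + 1).factorial : ℂ)) =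
      (Lm p (tA q) * tA q ^ r) n / (r.factorial : ℂ) := by
    intro r
    rw [← mul_div_assoc, cvp_eq, ← Lm_apply, Lm_pow, Nat.factorial_succ]
    push_cast
    have e1 : (r.factorial : ℂ) ≠ 0 := by exact_mod_cast Nat.factorial_ne_zero r
    have e2 : ((r : ℂ) + 1) ≠ 0 := by exact_mod_cast Nat.succ_ne_zero r
    field_simp
  have h0 : (n.factorization p : ℂ) * (cvp q 0 n / ((0 : ℕ).factorial : ℂ)) = 0 := by
    show (n.factorization p : ℂ) * ((if n = 1 then 1 else 0) / ((0 : ℕ).factorial : ℂ)) = 0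
    split_ifs with h
    · rw [h]
      simp
    · simp
  have h2 : cv (Lm p (tA q)) (te q R) n = ∑ r ∈ range (R + 1), (Lm p (tA q) * tA q ^ r) n / (r.factorial : ℂ) := by
    unfold cv te
    simp only [ArithmeticFunction.mul_apply, sum_div]
    rw [sum_comm]
    refine sum_congr rfl fun x _ => ?_
    rw [mul_sum]
    refine sum_congr rfl fun r _ => ?_
    rw [cvp_eq]
    ring
  rw [h2]
  unfold te
  rw [sum_range_succ' _ (R + 1), mul_add, h0, add_zero, mul_sum]
  exact sum_congr rfl fun r _ => h1 r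

/-- the derivative of the coefficients of a block -/
theorem Lm_qb (D : ℝ) (a a2 : ℕ → ℂ) (l p : ℕ) (hp : p ∈ PB D l) (n : ℕ) :
    Lm p (tA (qb D a a2 l)) n = (if n = p then a p else 0) + (if n = p ^ 2 then a2 p else 0) := by
  have hpp := (mem_PB hp).1
  have hq0 : qb D a a2 l 0 = 0 := by
    by_contra h
    exact (SP_qb D a a2 l 0 h).1 rfl
  rw [Lm_apply, tA_zero_eq _ hq0]
  have hne : p ≠ p ^ 2 := by
    intro h
    have : p ^ 1 = p ^ 2 := by rw [pow_one]; exact h
    have := Nat.pow_right_injective hpp.two_le this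
    omega
  by_cases h1 : n = p
  · rw [if_pos h1, h1, if_neg hne, qb_prime D a a2 l p hp, hpp.factorization_self]
    simp
  · by_cases h2 : n = p ^ 2
    · rw [if_neg h1, if_pos h2, h2, qb_sq D a a2 l p hp, Nat.factorization_pow]
      simp only [Finsupp.smul_apply, hpp.factorization_self, smul_eq_mul, mul_one]
      push_cast
      ring
    · rw [if_neg h1, if_neg h2, add_zero]
      by_cases h3 : qb D a a2 l n = 0
      · rw [h3, mul_zero]
      · have h4 := qb_supp D a a2 l n h3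
        rw [mem_union, mem_image] at h4
        have h5 : n.factorization p = 0 := by
          rw [Nat.factorization_eq_zero_iff]
          right
          left
          intro hpn
          rcases h4 with h4 | ⟨s, hs, rfl⟩
          · exact h1 ((Nat.prime_dvd_prime_iff_eq hpp (mem_PB h4).1).1 hpn).symm
          · have h6 := (Nat.prime_dvd_prime_iff_eq hpp (mem_PB hs).1).1 (hpp.dvd_of_dvd_pow hpn)
            rw [h6] at h2
            exact h2 rfl
        rw [h5]
        simp

/-- pointwise form -/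
theorem te_der_qb (D : ℝ) (a a2 : ℕ → ℂ) (l p : ℕ) (hp : p ∈ PB D l) (R n : ℕ) (hn : n ≠ 0) :
    (n.factorization p : ℂ) * te (qb D a a2 l) (R + 1) n =
      (if p ∣ n then a p * te (qb D a a2 l) R (n / p) else 0) +
      (if p ^ 2 ∣ n then a2 p * te (qb D a a2 l) R (n / p ^ 2) else 0) := by
  rw [te_der]
  unfold cv
  rw [Nat.sum_divisorsAntidiagonal (fun d e => Lm p (tA (qb D a a2 l)) d * te (qb D a a2 l) R e)]
  have h1 : ∀ d ∈ n.divisors, Lm p (tA (qb D a a2 l)) d * te (qb D a a2 l) R (n / d) =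
      (if d = p then a p * te (qb D a a2 l) R (n / p) else 0) + (if d = p ^ 2 then a2 p * te (qb D a a2 l) R (n / p ^ 2) else 0) := by
    intro d _
    rw [Lm_qb D a a2 l p hp, add_mul]
    congr 1
    · split_ifs with h
      · rw [h]
      · rw [zero_mul]
    · split_ifs with h
      · rw [h]
      · rw [zero_mul]
  rw [sum_congr rfl h1, sum_add_distrib, sum_ite_eq', sum_ite_eq']
  simp only [Nat.mem_divisors, ne_eq, hn, not_false_eq_true, and_true]

/-- the difference of two truncations -/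
theorem te_succ (q : ℕ → ℂ) (R n : ℕ) : te q (R + 1) n = te q R n + cvp q (R + 1) n / ((R + 1).factorial : ℂ) := by
  unfold te
  rw [sum_range_succ _ (R + 1)]

theorem te_one (D : ℝ) (a a2 : ℕ → ℂ) (l R : ℕ) : te (qb D a a2 l) R 1 = 1 := by
  have hq1 : qb D a a2 l 1 = 0 := by
    by_contra h
    have h4 := qb_supp D a a2 l 1 h
    rw [mem_union, mem_image] at h4
    rcases h4 with h4 | ⟨s, hs, h5⟩
    · exact Nat.not_prime_one (mem_PB h4).1
    · have := (mem_PB hs).1.one_lt
      nlinarith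
  have h1 : ∀ r : ℕ, cvp (qb D a a2 l) (r + 1) 1 = 0 := by
    intro r
    show cv (qb D a a2 l) (cvp (qb D a a2 l) r) 1 = 0
    unfold cv
    rw [Nat.divisorsAntidiagonal_one, sum_singleton, hq1, zero_mul]
  unfold te
  rw [sum_range_succ', sum_eq_zero (fun r _ => by rw [h1 r, zero_div])]
  simp [cvp]

/-! ### pointwise bounds -/

theorem pw_bound (A : ℝ) (_hA : 0 ≤ A) (D : ℝ) (a a2 : ℕ → ℂ) (ha : ∀ n, ‖a n‖ ≤ A) (ha2 : ∀ n, ‖a2 n‖ ≤ A) (l p : ℕ)
    (hp : p ∈ PB D l) (R n : ℕ) (hn : n ≠ 0) (hpn : p ∣ n) :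
    ‖te (qb D a a2 l) (R + 1) n‖ ≤ A * ‖te (qb D a a2 l) R (n / p)‖ +
      (if p ^ 2 ∣ n then A * ‖te (qb D a a2 l) R (n / p ^ 2)‖ else 0) := by
  have hpp := (mem_PB hp).1
  have h1 := te_der_qb D a a2 l p hp R n hn
  rw [if_pos hpn] at h1
  have hv : 1 ≤ n.factorization p := (Nat.Prime.dvd_iff_one_le_factorization hpp hn).1 hpn
  have hv' : (1 : ℝ) ≤ n.factorization p := by exact_mod_cast hv
  have h2 : ‖te (qb D a a2 l) (R + 1) n‖ ≤ ‖(n.factorization p : ℂ) * te (qb D a a2 l) (R + 1) n‖ := by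
    rw [norm_mul, Complex.norm_natCast]
    exact le_mul_of_one_le_left (norm_nonneg _) hv'
  refine h2.trans ?_
  rw [h1]
  refine (norm_add_le _ _).trans (add_le_add ?_ ?_)
  · rw [norm_mul]
    exact mul_le_mul_of_nonneg_right (ha p) (norm_nonneg _)
  · split_ifs
    · rw [norm_mul]
      exact mul_le_mul_of_nonneg_right (ha2 p) (norm_nonneg _)
    · rw [norm_zero]

theorem pw_exact (D : ℝ) (a a2 : ℕ → ℂ) (l p : ℕ) (hp : p ∈ PB D l) (R n : ℕ) (hn : n ≠ 0) (hpn : p ∣ n) (hpn2 : ¬ p ^ 2 ∣ n) :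
    te (qb D a a2 l) (R + 1) n = a p * te (qb D a a2 l) R (n / p) := by
  have hpp := (mem_PB hp).1
  have h1 := te_der_qb D a a2 l p hp R n hn
  rw [if_pos hpn, if_neg hpn2, add_zero] at h1
  have hv : n.factorization p = 1 := by
    have a1 := (Nat.Prime.dvd_iff_one_le_factorization hpp hn).1 hpn
    have a2 : ¬ 2 ≤ n.factorization p := fun h => hpn2 ((Nat.Prime.pow_dvd_iff_le_factorization hpp hn).2 h)
    omega
  rw [hv, Nat.cast_one, one_mul] at h1
  exact h1

end

end Pool.Agent.Q177.UM
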