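import Pool.Agent.Q177.UM.TLTb

set_option autoImplicit false

/-!
Project UM9 (helper97), job TLT (helper177), part 3: the majorant, norms of the sequences of one block.
-/

namespace Pool.Agent.Q177.UM

open Finset
open Pool.Agent.Q97.UM
open Pool.Agent.Q14.UM
open Pool.Agent.Q299.UM

noncomputable section

/-- the majorant of the coefficients of a block -/
def Gm (D : ℝ) (l : ℕ) (B : ℝ) : ArithmeticFunction ℝ := ∑ p ∈ PB D l, Fp (fun _ => (B : ℂ)) (fun _ => (B : ℂ)) p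

/-- the bound for its norm -/
def KK (CB B : ℝ) : ℝ := Real.exp (B ^ 2 * CB + 4 * Real.exp (3 * B))

theorem NN_Gm (D : ℝ) (l : ℕ) (B : ℝ) : NN (Gm D l B) := NN_sum _ _ fun p _ => NN_Fp _ _ p

theorem Gm_scale (D : ℝ) (l : ℕ) {c B : ℝ} (hc : 0 ≤ c) (hB : 0 ≤ B) (n : ℕ) : c * Gm D l B n = Gm D l (c * B) n := by
  unfold Gm
  rw [sum_ap, sum_ap, mul_sum]
  refine sum_congr rfl fun p _ => ?_
  rw [Fp_apply, Fp_apply]
  simp only [Complex.norm_real, Real.norm_eq_abs, abs_of_nonneg hB, abs_of_nonneg (mul_nonneg hc hB)]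
  split_ifs <;> ring

theorem qb_le_Gm (D : ℝ) (l : ℕ) {B : ℝ} (hB : 0 ≤ B) (a a2 : ℕ → ℂ) (ha : ∀ n, ‖a n‖ ≤ B) (ha2 : ∀ n, ‖a2 n‖ ≤ B) (n : ℕ) :
    ‖qb D a a2 l n‖ ≤ Gm D l B n := by
  refine (qb_le D a a2 l n).trans ?_
  unfold Gm
  rw [sum_ap, sum_ap]
  refine sum_le_sum fun p _ => ?_
  rw [Fp_apply, Fp_apply]
  simp only [Complex.norm_real, Real.norm_eq_abs, abs_of_nonneg hB]
  have h1 := ha p
  have h2 := ha2 p
  split_ifs <;> linarith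

theorem pow_scale (D : ℝ) (l : ℕ) {c B : ℝ} (hc : 0 ≤ c) (hB : 0 ≤ B) (r n : ℕ) :
    c ^ r * (Gm D l B ^ r) n = (Gm D l (c * B) ^ r) n := by
  induction r generalizing n with
  | zero => simp
  | succ r ih =>
    rw [pow_succ' (Gm D l B), pow_succ' (Gm D l (c * B)), ArithmeticFunction.mul_apply, ArithmeticFunction.mul_apply, mul_sum]
    refine sum_congr rfl fun x _ => ?_
    rw [← ih, ← Gm_scale D l hc hB]
    ring

theorem Gm_norm (D : ℝ) (l : ℕ) {B CB : ℝ} (hB : 0 ≤ B) (hC : ∑ p ∈ PB D l, (1 : ℝ) / p ≤ CB) (R N : ℕ) :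
    N2A N (Ee (Gm D l B) R) ≤ KK CB B := by
  have hBn : ‖(B : ℂ)‖ = B := by rw [Complex.norm_real, Real.norm_eq_abs, abs_of_nonneg hB]
  have h1 : N2A N (Ee (Gm D l B) R) ≤ N2A N (∏ p ∈ PB D l, Ee (Fp (fun _ => (B : ℂ)) (fun _ => (B : ℂ)) p) R) := by
    unfold N2A
    refine sum_le_sum fun n _ => ?_
    have h2 := Ee_sum (PB D l) (Fp (fun _ => (B : ℂ)) (fun _ => (B : ℂ))) (NN_Fp _ _) R n
    have h3 : 0 ≤ Ee (Gm D l B) R n := NN_Ee (NN_Gm D l B) R n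
    unfold Gm
    unfold Gm at h3
    gcongr
  refine h1.trans ((N2A_prod N _ _ (fun p => p) (fun _ _ _ _ h => h) ?_).trans ?_)
  · intro p hp
    exact SPA_Ee (SPA_Fp _ _ (mem_PB hp).1) _
  · have h2 : ∀ p ∈ PB D l, N2A N (Ee (Fp (fun _ => (B : ℂ)) (fun _ => (B : ℂ)) p) R) ≤
        Real.exp (B ^ 2 * (1 / (p : ℝ)) + 2 * Real.exp (3 * B) * (1 / (p : ℝ) ^ 2)) := by
      intro p hp
      have hpp := (mem_PB hp).1
      have h3 := N2A_local (NN_Fp _ _ p) hpp (Fp_one (fun _ => (B : ℂ)) (fun _ => (B : ℂ)) hpp) (SPA_Fp _ _ hpp)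
        (‖(B : ℂ)‖ + ‖(B : ℂ)‖ / 2) (by positivity) (Fp_l1 _ _ p) R N
      rw [Fp_self _ _ hpp, hBn] at h3
      have e1 : 2 * (B + B / 2) = 3 * B := by ring
      rw [e1] at h3
      have h6 := Real.add_one_le_exp (B ^ 2 * (1 / (p : ℝ)) + 2 * Real.exp (3 * B) * (1 / (p : ℝ) ^ 2))
      have e2 : B ^ 2 / (p : ℝ) = B ^ 2 * (1 / (p : ℝ)) := by ring
      have e3 : 2 * Real.exp (3 * B) / (p : ℝ) ^ 2 = 2 * Real.exp (3 * B) * (1 / (p : ℝ) ^ 2) := by ring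
      rw [e2, e3] at h3
      linarith
    refine (prod_le_prod (fun x _ => N2A_nonneg _ _) h2).trans ?_
    rw [← Real.exp_sum, sum_add_distrib, ← mul_sum, ← mul_sum]
    unfold KK
    apply Real.exp_le_exp.2
    have h4 : ∑ p ∈ PB D l, (1 / (p : ℝ) ^ 2) ≤ 2 :=
      (sum_le_sum_of_subset_of_nonneg (filter_subset _ _) (fun p _ _ => by positivity)).trans (sum_inv_sq _)
    have h5 := mul_le_mul_of_nonneg_left hC (sq_nonneg B)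
    have h6 := mul_le_mul_of_nonneg_left h4 (by positivity : 0 ≤ 2 * Real.exp (3 * B))
    linarith

theorem te_N2 (D : ℝ) (l : ℕ) {A CB : ℝ} (hA : 0 ≤ A) (hC : ∑ p ∈ PB D l, (1 : ℝ) / p ≤ CB) (a a2 : ℕ → ℂ)
    (ha : ∀ n, ‖a n‖ ≤ A) (ha2 : ∀ n, ‖a2 n‖ ≤ A) (R N : ℕ) : N2 N (te (qb D a a2 l) R) ≤ KK CB A := by
  refine le_trans ?_ (Gm_norm D l hA hC R N)
  unfold N2 N2A
  refine sum_le_sum fun n _ => ?_
  have := te_le (qb D a a2 l) (Gm D l A) (NN_Gm D l A) (qb_le_Gm D l hA a a2 ha ha2) R n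
  gcongr

theorem cvp_N2 (D : ℝ) (l : ℕ) {A CB : ℝ} (hA : 0 ≤ A) (hC : ∑ p ∈ PB D l, (1 : ℝ) / p ≤ CB) (a a2 : ℕ → ℂ)
    (ha : ∀ n, ‖a n‖ ≤ A) (ha2 : ∀ n, ‖a2 n‖ ≤ A) (R N : ℕ) :
    N2 N (fun n => cvp (qb D a a2 l) R n / (R.factorial : ℂ)) ≤ Real.exp (-(2 * (R : ℝ))) * KK CB (Real.exp 1 * A) := by
  have h0 : 0 ≤ Real.exp 1 * A := by positivity
  have h1 := mul_le_mul_of_nonneg_left (Gm_norm D l h0 hC R N) (Real.exp_pos (-(2 * (R : ℝ)))).le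
  refine le_trans ?_ h1
  unfold N2 N2A
  rw [mul_sum]
  refine sum_le_sum fun n _ => ?_
  have h2 := cvp_le (qb D a a2 l) (Gm D l A) (NN_Gm D l A) (qb_le_Gm D l hA a a2 ha ha2) R n
  have h3 := pow_scale D l (Real.exp_pos 1).le hA R n
  have h4 : (Gm D l (Real.exp 1 * A) ^ R) n / (R.factorial : ℝ) ≤ Ee (Gm D l (Real.exp 1 * A)) R n := by
    rw [Ee_apply]
    exact single_le_sum (f := fun r => (Gm D l (Real.exp 1 * A) ^ r) n / (r.factorial : ℝ))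
      (fun r _ => div_nonneg (NN_pow (NN_Gm D l _) r n) (by positivity)) (mem_range.2 (Nat.lt_succ_self R))
  rw [← h3] at h4
  have h5 : ‖cvp (qb D a a2 l) R n / (R.factorial : ℂ)‖ ≤ Real.exp (-(R : ℝ)) * Ee (Gm D l (Real.exp 1 * A)) R n := by
    rw [norm_div, Complex.norm_natCast]
    calc ‖cvp (qb D a a2 l) R n‖ / (R.factorial : ℝ) ≤ (Gm D l A ^ R) n / (R.factorial : ℝ) := by gcongr
      _ = Real.exp (-(R : ℝ)) * (Real.exp 1 ^ R * (Gm D l A ^ R) n / (R.factorial : ℝ)) := by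
          rw [← Real.exp_nat_mul, mul_one, mul_div_assoc, ← mul_assoc, ← Real.exp_add]
          simp
      _ ≤ Real.exp (-(R : ℝ)) * Ee (Gm D l (Real.exp 1 * A)) R n := mul_le_mul_of_nonneg_left h4 (Real.exp_pos _).le
  have h6 : ‖cvp (qb D a a2 l) R n / (R.factorial : ℂ)‖ ^ 2 ≤ (Real.exp (-(R : ℝ)) * Ee (Gm D l (Real.exp 1 * A)) R n) ^ 2 :=
    pow_le_pow_left₀ (norm_nonneg _) h5 2
  have h7 : (Real.exp (-(R : ℝ)) * Ee (Gm D l (Real.exp 1 * A)) R n) ^ 2 =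
      Real.exp (-(2 * (R : ℝ))) * Ee (Gm D l (Real.exp 1 * A)) R n ^ 2 := by
    rw [mul_pow, ← Real.exp_nat_mul]
    congr 2
    push_cast
    ring
  rw [h7] at h6
  rw [← mul_div_assoc]
  gcongr

theorem cv_N2 (D : ℝ) (l : ℕ) {A CB : ℝ} (hA : 0 ≤ A) (hC : ∑ p ∈ PB D l, (1 : ℝ) / p ≤ CB) (a a2 h h2 : ℕ → ℂ)
    (ha : ∀ n, ‖a n‖ ≤ A) (ha2 : ∀ n, ‖a2 n‖ ≤ A) (hh : ∀ n, ‖h n‖ ≤ A) (hh2 : ∀ n, ‖h2 n‖ ≤ A) (R N : ℕ) :
    N2 N (cv (qb D h h2 l) (te (qb D a a2 l) R)) ≤ KK CB (2 * A) := by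
  refine le_trans ?_ (Gm_norm D l (by positivity : 0 ≤ 2 * A) hC (R + 1) N)
  unfold N2 N2A
  refine sum_le_sum fun n _ => ?_
  have h1 : ‖cv (qb D h h2 l) (te (qb D a a2 l) R) n‖ ≤ (Gm D l A * Ee (Gm D l A) R) n := by
    unfold cv
    rw [ArithmeticFunction.mul_apply]
    refine (norm_sum_le _ _).trans (sum_le_sum fun x _ => ?_)
    rw [norm_mul]
    exact mul_le_mul (qb_le_Gm D l hA h h2 hh hh2 _)
      (te_le (qb D a a2 l) (Gm D l A) (NN_Gm D l A) (qb_le_Gm D l hA a a2 ha ha2) R _) (norm_nonneg _) (NN_Gm D l A _)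
  have h3 : (Gm D l A * Ee (Gm D l A) R) n = ∑ r ∈ range (R + 1), (Gm D l A ^ (r + 1)) n / (r.factorial : ℝ) := by
    have e1 : ∀ r : ℕ, Gm D l A ^ (r + 1) = Gm D l A * Gm D l A ^ r := fun r => pow_succ' _ _
    simp only [e1]
    simp only [ArithmeticFunction.mul_apply, Ee_apply, sum_div]
    rw [sum_comm]
    refine sum_congr rfl fun x _ => ?_
    rw [mul_sum]
    refine sum_congr rfl fun r _ => ?_
    ring
  have h4 : ∀ r ∈ range (R + 1), (Gm D l A ^ (r + 1)) n / (r.factorial : ℝ) ≤ (Gm D l (2 * A) ^ (r + 1)) n / ((r + 1).factorial : ℝ) := by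
    intro r _
    rw [← pow_scale D l (by norm_num : (0 : ℝ) ≤ 2) hA (r + 1) n, Nat.factorial_succ]
    have g1 : (0 : ℝ) < r.factorial := by exact_mod_cast Nat.factorial_pos r
    have g2 : (0 : ℝ) ≤ (Gm D l A ^ (r + 1)) n := NN_pow (NN_Gm D l A) _ n
    have g3 : ((r : ℝ) + 1) ≤ 2 ^ (r + 1) := by
      have : r + 1 ≤ 2 ^ (r + 1) := (Nat.lt_two_pow_self).le
      exact_mod_cast this
    push_cast
    rw [div_le_div_iff₀ g1 (by positivity)]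
    calc (Gm D l A ^ (r + 1)) n * (((r : ℝ) + 1) * r.factorial) = ((r : ℝ) + 1) * ((Gm D l A ^ (r + 1)) n * r.factorial) := by ring
      _ ≤ 2 ^ (r + 1) * ((Gm D l A ^ (r + 1)) n * r.factorial) := mul_le_mul_of_nonneg_right g3 (by positivity)
      _ = 2 ^ (r + 1) * (Gm D l A ^ (r + 1)) n * r.factorial := by ring
  have h5 : (Gm D l A * Ee (Gm D l A) R) n ≤ Ee (Gm D l (2 * A)) (R + 1) n := by
    rw [h3, Ee_apply, sum_range_succ' _ (R + 1)]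
    have g4 := sum_le_sum h4
    have g5 : 0 ≤ (Gm D l (2 * A) ^ 0) n / ((Nat.factorial 0 : ℕ) : ℝ) := div_nonneg (NN_pow (NN_Gm D l _) 0 n) (by positivity)
    linarith
  have h6 := h1.trans h5
  gcongr

/-! ### divisibility by `p` and `p ^ 2` -/

theorem div_p (D : ℝ) (l : ℕ) {A CB : ℝ} (hA : 0 ≤ A) (hC : ∑ p ∈ PB D l, (1 : ℝ) / p ≤ CB) (a a2 : ℕ → ℂ)
    (ha : ∀ n, ‖a n‖ ≤ A) (ha2 : ∀ n, ‖a2 n‖ ≤ A) (R N p : ℕ) (hp : p ∈ PB D l) :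
    ∑ n ∈ (Icc 1 N).filter (fun n => p ∣ n), ‖te (qb D a a2 l) (R + 1) n‖ ^ 2 / (n : ℝ) ≤ 4 * A ^ 2 * KK CB A / p := by
  have hpp := (mem_PB hp).1
  have hp0 : (0 : ℝ) < p := by exact_mod_cast hpp.pos
  have hp1 : (1 : ℝ) ≤ p := by exact_mod_cast hpp.one_lt.le
  obtain ⟨f, hf⟩ : ∃ f : ℕ → ℝ, f = fun n => ‖te (qb D a a2 l) R n‖ ^ 2 := ⟨_, rfl⟩
  have hf0 : ∀ n, 0 ≤ f n := fun n => by rw [hf]; positivity
  have hfN : ∑ k ∈ Icc 1 N, f k / (k : ℝ) ≤ KK CB A := by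
    rw [hf]
    exact te_N2 D l hA hC a a2 ha ha2 R N
  have hS0 : 0 ≤ ∑ k ∈ Icc 1 N, f k / (k : ℝ) := sum_nonneg fun k _ => div_nonneg (hf0 k) (Nat.cast_nonneg k)
  have h1 : ∀ n ∈ (Icc 1 N).filter (fun n => p ∣ n), ‖te (qb D a a2 l) (R + 1) n‖ ^ 2 / (n : ℝ) ≤
      2 * A ^ 2 * (f (n / p) / (n : ℝ)) + 2 * A ^ 2 * (if p ^ 2 ∣ n then f (n / p ^ 2) / (n : ℝ) else 0) := by
    intro n hn
    rw [mem_filter, mem_Icc] at hn
    have h2 := pw_bound A hA D a a2 ha ha2 l p hp R n (by omega) hn.2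
    have hn0 : (0 : ℝ) < n := by exact_mod_cast hn.1.1
    have h3 := pow_le_pow_left₀ (norm_nonneg _) h2 2
    rw [hf]
    simp only
    split_ifs at h3 ⊢ with hc
    · have e1 : 2 * A ^ 2 * (‖te (qb D a a2 l) R (n / p)‖ ^ 2 / (n : ℝ)) + 2 * A ^ 2 * (‖te (qb D a a2 l) R (n / p ^ 2)‖ ^ 2 / (n : ℝ)) =
          (2 * A ^ 2 * ‖te (qb D a a2 l) R (n / p)‖ ^ 2 + 2 * A ^ 2 * ‖te (qb D a a2 l) R (n / p ^ 2)‖ ^ 2) / (n : ℝ) := by ring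
      rw [e1]
      refine div_le_div_of_nonneg_right (h3.trans ?_) hn0.le
      nlinarith [sq_nonneg (A * ‖te (qb D a a2 l) R (n / p)‖ - A * ‖te (qb D a a2 l) R (n / p ^ 2)‖)]
    · rw [add_zero] at h3
      rw [mul_zero, add_zero, ← mul_div_assoc]
      refine div_le_div_of_nonneg_right (h3.trans ?_) hn0.le
      nlinarith [sq_nonneg (A * ‖te (qb D a a2 l) R (n / p)‖)]
  refine (sum_le_sum h1).trans ?_
  rw [sum_add_distrib, ← mul_sum, ← mul_sum]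
  have h2 := sum_shift_le p N hpp.one_lt.le f hf0
  have h3 : ∑ n ∈ (Icc 1 N).filter (fun n => p ∣ n), (if p ^ 2 ∣ n then f (n / p ^ 2) / (n : ℝ) else 0) ≤
      (1 / ((p ^ 2 : ℕ) : ℝ)) * ∑ k ∈ Icc 1 N, f k / (k : ℝ) := by
    refine le_trans ?_ (sum_shift_le (p ^ 2) N (Nat.one_le_pow _ _ hpp.pos) f hf0)
    rw [← sum_filter]
    refine sum_le_sum_of_subset_of_nonneg ?_ fun n _ _ => div_nonneg (hf0 _) (Nat.cast_nonneg _)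
    intro n hn
    rw [mem_filter, mem_filter] at hn
    rw [mem_filter]
    exact ⟨hn.1.1, hn.2⟩
  have h4 : (1 / ((p ^ 2 : ℕ) : ℝ)) ≤ 1 / (p : ℝ) := by
    push_cast
    apply one_div_le_one_div_of_le hp0
    nlinarith
  have h5 : (1 / ((p ^ 2 : ℕ) : ℝ)) * ∑ k ∈ Icc 1 N, f k / (k : ℝ) ≤ 1 / (p : ℝ) * KK CB A :=
    mul_le_mul h4 hfN hS0 (by positivity)
  have h6 : (1 / (p : ℝ)) * ∑ k ∈ Icc 1 N, f k / (k : ℝ) ≤ 1 / (p : ℝ) * KK CB A :=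
    mul_le_mul_of_nonneg_left hfN (by positivity)
  have hA2 : 0 ≤ 2 * A ^ 2 := by positivity
  calc 2 * A ^ 2 * ∑ n ∈ (Icc 1 N).filter (fun n => p ∣ n), f (n / p) / (n : ℝ) +
      2 * A ^ 2 * ∑ n ∈ (Icc 1 N).filter (fun n => p ∣ n), (if p ^ 2 ∣ n then f (n / p ^ 2) / (n : ℝ) else 0)
      ≤ 2 * A ^ 2 * (1 / (p : ℝ) * KK CB A) + 2 * A ^ 2 * (1 / (p : ℝ) * KK CB A) :=
        add_le_add (mul_le_mul_of_nonneg_left (h2.trans h6) hA2) (mul_le_mul_of_nonneg_left (h3.trans h5) hA2)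
    _ = 4 * A ^ 2 * KK CB A / p := by ring

/-- sum of `‖E (n / p)‖ ^ 2` over the multiples of `p ^ 2` -/
theorem div_pp' (D : ℝ) (l : ℕ) {A CB : ℝ} (hA : 0 ≤ A) (hC : ∑ p ∈ PB D l, (1 : ℝ) / p ≤ CB) (a a2 : ℕ → ℂ)
    (ha : ∀ n, ‖a n‖ ≤ A) (ha2 : ∀ n, ‖a2 n‖ ≤ A) (R N p : ℕ) (hp : p ∈ PB D l) :
    ∑ n ∈ (Icc 1 N).filter (fun n => p ^ 2 ∣ n), ‖te (qb D a a2 l) (R + 1) (n / p)‖ ^ 2 / (n : ℝ) ≤ 4 * A ^ 2 * KK CB A / (p : ℝ) ^ 2 := by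
  have hpp := (mem_PB hp).1
  have hp0 : (0 : ℝ) < p := by exact_mod_cast hpp.pos
  obtain ⟨g, hg⟩ : ∃ g : ℕ → ℝ, g = fun n => if p ∣ n then ‖te (qb D a a2 l) (R + 1) n‖ ^ 2 else 0 := ⟨_, rfl⟩
  have hg0 : ∀ n, 0 ≤ g n := fun n => by rw [hg]; simp only; split_ifs <;> positivity
  have h1 : ∑ n ∈ (Icc 1 N).filter (fun n => p ^ 2 ∣ n), ‖te (qb D a a2 l) (R + 1) (n / p)‖ ^ 2 / (n : ℝ) ≤
      ∑ n ∈ (Icc 1 N).filter (fun n => p ∣ n), g (n / p) / (n : ℝ) := by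
    have e1 : ∀ n ∈ (Icc 1 N).filter (fun n => p ^ 2 ∣ n), ‖te (qb D a a2 l) (R + 1) (n / p)‖ ^ 2 / (n : ℝ) = g (n / p) / (n : ℝ) := by
      intro n hn
      rw [mem_filter] at hn
      rw [hg]
      simp only
      rw [if_pos]
      obtain ⟨k, hk⟩ := hn.2
      rw [hk, pow_two, mul_assoc, Nat.mul_div_cancel_left _ hpp.pos]
      exact Dvd.intro _ rfl
    rw [sum_congr rfl e1]
    refine sum_le_sum_of_subset_of_nonneg ?_ fun n _ _ => div_nonneg (hg0 _) (Nat.cast_nonneg _)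
    intro n hn
    rw [mem_filter] at hn ⊢
    exact ⟨hn.1, dvd_trans (Dvd.intro_left p (by rw [pow_two])) hn.2⟩
  refine h1.trans ((sum_shift_le p N hpp.one_lt.le g hg0).trans ?_)
  have h2 : ∑ k ∈ Icc 1 N, g k / (k : ℝ) = ∑ n ∈ (Icc 1 N).filter (fun n => p ∣ n), ‖te (qb D a a2 l) (R + 1) n‖ ^ 2 / (n : ℝ) := by
    rw [sum_filter]
    refine sum_congr rfl fun k _ => ?_
    rw [hg]
    simp only
    split_ifs
    · rfl
    · rw [zero_div]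
  rw [h2]
  calc 1 / (p : ℝ) * ∑ n ∈ (Icc 1 N).filter (fun n => p ∣ n), ‖te (qb D a a2 l) (R + 1) n‖ ^ 2 / (n : ℝ)
      ≤ 1 / (p : ℝ) * (4 * A ^ 2 * KK CB A / p) :=
        mul_le_mul_of_nonneg_left (div_p D l hA hC a a2 ha ha2 R N p hp) (by positivity)
    _ = 4 * A ^ 2 * KK CB A / (p : ℝ) ^ 2 := by
        field_simp

theorem div_pp (D : ℝ) (l : ℕ) {A CB : ℝ} (hA : 1 ≤ A) (hC : ∑ p ∈ PB D l, (1 : ℝ) / p ≤ CB) (a a2 : ℕ → ℂ)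
    (ha : ∀ n, ‖a n‖ ≤ A) (ha2 : ∀ n, ‖a2 n‖ ≤ A) (R N p : ℕ) (hp : p ∈ PB D l) :
    ∑ n ∈ (Icc 1 N).filter (fun n => p ^ 2 ∣ n), ‖te (qb D a a2 l) (R + 2) n‖ ^ 2 / (n : ℝ) ≤ 10 * A ^ 4 * KK CB A / (p : ℝ) ^ 2 := by
  have hpp := (mem_PB hp).1
  have hA0 : 0 ≤ A := by linarith
  have hp0 : (0 : ℝ) < p := by exact_mod_cast hpp.pos
  obtain ⟨f, hf⟩ : ∃ f : ℕ → ℝ, f = fun n => ‖te (qb D a a2 l) (R + 1) n‖ ^ 2 := ⟨_, rfl⟩
  have hf0 : ∀ n, 0 ≤ f n := fun n => by rw [hf]; positivity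
  have hfN : ∑ k ∈ Icc 1 N, f k / (k : ℝ) ≤ KK CB A := by
    rw [hf]
    exact te_N2 D l hA0 hC a a2 ha ha2 (R + 1) N
  have h1 : ∀ n ∈ (Icc 1 N).filter (fun n => p ^ 2 ∣ n), ‖te (qb D a a2 l) (R + 2) n‖ ^ 2 / (n : ℝ) ≤
      2 * A ^ 2 * (‖te (qb D a a2 l) (R + 1) (n / p)‖ ^ 2 / (n : ℝ)) + 2 * A ^ 2 * (f (n / p ^ 2) / (n : ℝ)) := by
    intro n hn
    rw [mem_filter, mem_Icc] at hn
    have hpn : p ∣ n := dvd_trans (Dvd.intro_left p (by rw [pow_two])) hn.2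
    have h2 := pw_bound A hA0 D a a2 ha ha2 l p hp (R + 1) n (by omega) hpn
    rw [if_pos hn.2] at h2
    have hn0 : (0 : ℝ) < n := by exact_mod_cast hn.1.1
    have h3 := pow_le_pow_left₀ (norm_nonneg _) h2 2
    rw [hf]
    simp only
    have e1 : 2 * A ^ 2 * (‖te (qb D a a2 l) (R + 1) (n / p)‖ ^ 2 / (n : ℝ)) + 2 * A ^ 2 * (‖te (qb D a a2 l) (R + 1) (n / p ^ 2)‖ ^ 2 / (n : ℝ)) =
        (2 * A ^ 2 * ‖te (qb D a a2 l) (R + 1) (n / p)‖ ^ 2 + 2 * A ^ 2 * ‖te (qb D a a2 l) (R + 1) (n / p ^ 2)‖ ^ 2) / (n : ℝ) := by ring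
    rw [e1]
    refine div_le_div_of_nonneg_right (h3.trans ?_) hn0.le
    nlinarith [sq_nonneg (A * ‖te (qb D a a2 l) (R + 1) (n / p)‖ - A * ‖te (qb D a a2 l) (R + 1) (n / p ^ 2)‖)]
  refine (sum_le_sum h1).trans ?_
  rw [sum_add_distrib, ← mul_sum, ← mul_sum]
  have h2 := div_pp' D l hA0 hC a a2 ha ha2 R N p hp
  have h3 := sum_shift_le (p ^ 2) N (Nat.one_le_pow _ _ hpp.pos) f hf0
  have h4 : (1 / ((p ^ 2 : ℕ) : ℝ)) * ∑ k ∈ Icc 1 N, f k / (k : ℝ) ≤ 1 / (p : ℝ) ^ 2 * KK CB A := by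
    push_cast
    exact mul_le_mul_of_nonneg_left hfN (by positivity)
  have hK : 0 < KK CB A := Real.exp_pos _
  have hA2 : 0 ≤ 2 * A ^ 2 := by positivity
  have hA4 : A ^ 2 ≤ A ^ 4 := pow_le_pow_right₀ hA (by norm_num)
  calc 2 * A ^ 2 * ∑ n ∈ (Icc 1 N).filter (fun n => p ^ 2 ∣ n), ‖te (qb D a a2 l) (R + 1) (n / p)‖ ^ 2 / (n : ℝ) +
      2 * A ^ 2 * ∑ n ∈ (Icc 1 N).filter (fun n => p ^ 2 ∣ n), f (n / p ^ 2) / (n : ℝ)
      ≤ 2 * A ^ 2 * (4 * A ^ 2 * KK CB A / (p : ℝ) ^ 2) + 2 * A ^ 2 * (1 / (p : ℝ) ^ 2 * KK CB A) :=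
        add_le_add (mul_le_mul_of_nonneg_left h2 hA2) (mul_le_mul_of_nonneg_left (h3.trans h4) hA2)
    _ = (8 * A ^ 4 + 2 * A ^ 2) * KK CB A / (p : ℝ) ^ 2 := by ring
    _ ≤ 10 * A ^ 4 * KK CB A / (p : ℝ) ^ 2 := by
        refine div_le_div_of_nonneg_right ?_ (by positivity)
        refine mul_le_mul_of_nonneg_right ?_ hK.le
        linarith

end

end Pool.Agent.Q177.UM
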