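import Pool.Agent.Q177.UM.TLTc

set_option autoImplicit false

/-!
Project UM9 (helper97), job TLT (helper177), part 4: mean and variance of one block.
-/

namespace Pool.Agent.Q177.UM

open Finset
open Pool.Agent.Q97.UM
open Pool.Agent.Q14.UM
open Pool.Agent.Q299.UM

noncomputable section

/-- shift -/
def sh (m : ℕ) (F : ℕ → ℂ) (n : ℕ) : ℂ := if m ∣ n then F (n / m) else 0

theorem KK_pos (CB B : ℝ) : 0 < KK CB B := Real.exp_pos _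

/-- the first constant -/
def C1 (CB A : ℝ) : ℝ := A * (KK CB A + KK CB (Real.exp 1 * A)) + (5 * A ^ 4 + (1 / 2 + A) * (4 * A ^ 2)) * KK CB A

theorem C1_nonneg {CB A : ℝ} (hA : 0 ≤ A) : 0 ≤ C1 CB A := by
  have h1 := KK_pos CB A
  have h2 := KK_pos CB (Real.exp 1 * A)
  unfold C1
  positivity

theorem ip_sh_p (D : ℝ) (l : ℕ) {A CB : ℝ} (hA : 1 ≤ A) (hC : ∑ p ∈ PB D l, (1 : ℝ) / p ≤ CB) (a a2 : ℕ → ℂ)
    (ha : ∀ n, ‖a n‖ ≤ A) (ha2 : ∀ n, ‖a2 n‖ ≤ A) (R X N p : ℕ) (hp : p ∈ PB D l)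
    (hX : ∀ n, X < n → te (qb D a a2 l) (R + 2) n = 0) (hXN : p * X ≤ N) :
    ‖ip N (sh p (te (qb D a a2 l) (R + 2))) (te (qb D a a2 l) (R + 2)) -
      (starRingEnd ℂ) (a p) / (p : ℂ) * (N2 N (te (qb D a a2 l) (R + 2)) : ℂ)‖ ≤
      C1 CB A * (Real.exp (-((R : ℝ) + 2)) * (1 / (p : ℝ)) + 1 / (p : ℝ) ^ 2) := by
  have hpp := (mem_PB hp).1
  have hA0 : 0 ≤ A := by linarith
  have hp0 : (0 : ℝ) < p := by exact_mod_cast hpp.pos
  obtain ⟨E, hE⟩ : ∃ E : ℕ → ℂ, E = te (qb D a a2 l) (R + 2) := ⟨_, rfl⟩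
  obtain ⟨T, hT⟩ : ∃ T : ℕ → ℂ, T = fun n => cvp (qb D a a2 l) (R + 2) n / ((R + 2).factorial : ℂ) := ⟨_, rfl⟩
  obtain ⟨ρ, hρ⟩ : ∃ ρ : ℝ, ρ = (R : ℝ) + 2 := ⟨_, rfl⟩
  have hEN : N2 N E ≤ KK CB A := by rw [hE]; exact te_N2 D l hA0 hC a a2 ha ha2 _ N
  have hTN : N2 N T ≤ Real.exp (-(2 * ρ)) * KK CB (Real.exp 1 * A) := by
    have := cvp_N2 D l hA0 hC a a2 ha ha2 (R + 2) N
    push_cast at this
    rw [hT, hρ]
    exact this
  rw [← hE, ← hρ]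
  rw [← hE] at hX
  obtain ⟨S, hS⟩ : ∃ S : Finset ℕ, S = (Icc 1 N).filter (fun n => p ∣ n) := ⟨_, rfl⟩
  -- the main term
  have hmain : ∑ n ∈ S, ‖E (n / p)‖ ^ 2 / (n : ℝ) = (1 / (p : ℝ)) * N2 N E := by
    rw [hS, sum_shift p N hpp.one_lt.le (fun k => ‖E k‖ ^ 2)]
    congr 1
    unfold N2
    refine sum_subset (Icc_subset_Icc_right (Nat.div_le_self _ _)) ?_
    intro k hk hk'
    rw [mem_Icc] at hk hk'
    have h1 : N / p < k := by omega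
    have h2 : X ≤ N / p := (Nat.le_div_iff_mul_le hpp.pos).2 (by rw [mul_comm]; exact hXN)
    rw [hX k (by omega)]
    simp
  have hsum : ip N (sh p E) E = ∑ n ∈ S, E (n / p) * (starRingEnd ℂ) (E n) / (n : ℂ) := by
    unfold ip sh
    rw [hS, sum_filter]
    refine sum_congr rfl fun n _ => ?_
    split_ifs
    · rfl
    · rw [zero_mul, zero_div]
  have hdiff : ip N (sh p E) E - (starRingEnd ℂ) (a p) / (p : ℂ) * (N2 N E : ℂ) =
      ∑ n ∈ S, E (n / p) * (starRingEnd ℂ) (E n - a p * E (n / p)) / (n : ℂ) := by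
    have h1 : (starRingEnd ℂ) (a p) / (p : ℂ) * (N2 N E : ℂ) =
        ∑ n ∈ S, E (n / p) * (starRingEnd ℂ) (a p * E (n / p)) / (n : ℂ) := by
      have h2 : (starRingEnd ℂ) (a p) / (p : ℂ) * (N2 N E : ℂ) = (starRingEnd ℂ) (a p) * (((1 / (p : ℝ)) * N2 N E : ℝ) : ℂ) := by
        push_cast
        ring
      rw [h2, ← hmain]
      push_cast
      rw [mul_sum]
      refine sum_congr rfl fun n _ => ?_
      rw [map_mul]
      have h3 : E (n / p) * (starRingEnd ℂ) (E (n / p)) = ((‖E (n / p)‖ : ℂ)) ^ 2 := by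
        rw [Complex.mul_conj, Complex.normSq_eq_norm_sq]
        push_cast
        rfl
      rw [← h3]
      ring
    rw [hsum, h1, ← sum_sub_distrib]
    refine sum_congr rfl fun n _ => ?_
    rw [map_sub]
    ring
  rw [hdiff]
  -- pointwise
  obtain ⟨g, hg⟩ : ∃ g : ℕ → ℝ, g = fun k => (Real.exp (-ρ) * ‖E k‖ ^ 2 + Real.exp ρ * ‖T k‖ ^ 2) / 2 := ⟨_, rfl⟩
  have hg0 : ∀ k, 0 ≤ g k := fun k => by rw [hg]; positivity
  have hpt : ∀ n ∈ S, ‖E (n / p) * (starRingEnd ℂ) (E n - a p * E (n / p)) / (n : ℂ)‖ ≤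
      A * (g (n / p) / (n : ℝ)) + (if p ^ 2 ∣ n then (1 / 2 * (‖E n‖ ^ 2 / (n : ℝ)) + (1 / 2 + A) * (‖E (n / p)‖ ^ 2 / (n : ℝ))) else 0) := by
    intro n hn
    rw [hS, mem_filter, mem_Icc] at hn
    have hn0 : (0 : ℝ) < n := by exact_mod_cast hn.1.1
    rw [norm_div, norm_mul, RCLike.norm_conj, Complex.norm_natCast]
    have hgn : 0 ≤ A * (g (n / p) / (n : ℝ)) := mul_nonneg hA0 (div_nonneg (hg0 _) hn0.le)
    split_ifs with hc
    · have h1 : ‖E n - a p * E (n / p)‖ ≤ ‖E n‖ + A * ‖E (n / p)‖ := by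
        refine (norm_sub_le _ _).trans ?_
        rw [norm_mul]
        have := mul_le_mul_of_nonneg_right (ha p) (norm_nonneg (E (n / p)))
        linarith
      have h2 : ‖E (n / p)‖ * ‖E n - a p * E (n / p)‖ ≤ 1 / 2 * ‖E n‖ ^ 2 + (1 / 2 + A) * ‖E (n / p)‖ ^ 2 := by
        have h3 := mul_le_mul_of_nonneg_left h1 (norm_nonneg (E (n / p)))
        nlinarith [sq_nonneg (‖E n‖ - ‖E (n / p)‖)]
      have h4 : ‖E (n / p)‖ * ‖E n - a p * E (n / p)‖ / (n : ℝ) ≤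
          1 / 2 * (‖E n‖ ^ 2 / (n : ℝ)) + (1 / 2 + A) * (‖E (n / p)‖ ^ 2 / (n : ℝ)) := by
        have e1 : 1 / 2 * (‖E n‖ ^ 2 / (n : ℝ)) + (1 / 2 + A) * (‖E (n / p)‖ ^ 2 / (n : ℝ)) =
            (1 / 2 * ‖E n‖ ^ 2 + (1 / 2 + A) * ‖E (n / p)‖ ^ 2) / (n : ℝ) := by ring
        rw [e1]
        exact div_le_div_of_nonneg_right h2 hn0.le
      linarith
    · rw [add_zero]
      have h1 : E n - a p * E (n / p) = -(a p * T (n / p)) := by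
        have h2 := pw_exact D a a2 l p hp (R + 1) n (by omega) hn.2 hc
        have h3 := te_succ (qb D a a2 l) (R + 1) (n / p)
        rw [hE, hT]
        simp only
        rw [h2, h3]
        ring
      have h4 : ‖E (n / p)‖ * ‖E n - a p * E (n / p)‖ ≤ A * g (n / p) := by
        rw [h1, norm_neg, norm_mul]
        have h5 : ‖E (n / p)‖ * ‖T (n / p)‖ ≤ g (n / p) := by
          rw [hg]
          simp only
          have e1 : Real.exp (-ρ) * Real.exp ρ = 1 := by rw [← Real.exp_add]; simp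
          have e2 := Real.exp_pos (-ρ)
          have e3 := Real.exp_pos ρ
          obtain ⟨s, hs, hs2⟩ : ∃ s : ℝ, 0 < s ∧ s ^ 2 = Real.exp (-ρ) := ⟨Real.exp (-ρ / 2), Real.exp_pos _, by
            rw [← Real.exp_nat_mul]; congr 1; push_cast; ring⟩
          obtain ⟨t, ht, ht2⟩ : ∃ t : ℝ, 0 < t ∧ t ^ 2 = Real.exp ρ := ⟨Real.exp (ρ / 2), Real.exp_pos _, by
            rw [← Real.exp_nat_mul]; congr 1; push_cast; ring⟩
          have hst : s * t = 1 := by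
            have : (s * t) ^ 2 = 1 := by rw [mul_pow, hs2, ht2, e1]
            nlinarith [mul_pos hs ht]
          rw [← hs2, ← ht2]
          have h6 := sq_nonneg (s * ‖E (n / p)‖ - t * ‖T (n / p)‖)
          have h7 : (s * ‖E (n / p)‖ - t * ‖T (n / p)‖) ^ 2 =
              s ^ 2 * ‖E (n / p)‖ ^ 2 + t ^ 2 * ‖T (n / p)‖ ^ 2 - 2 * (s * t) * (‖E (n / p)‖ * ‖T (n / p)‖) := by ring
          rw [h7, hst] at h6
          linarith
        calc ‖E (n / p)‖ * (‖a p‖ * ‖T (n / p)‖) = ‖a p‖ * (‖E (n / p)‖ * ‖T (n / p)‖) := by ring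
          _ ≤ A * g (n / p) := mul_le_mul (ha p) h5 (by positivity) hA0
      rw [← mul_div_assoc]
      exact div_le_div_of_nonneg_right h4 hn0.le
  refine (norm_sum_le _ _).trans ((sum_le_sum hpt).trans ?_)
  rw [sum_add_distrib, ← mul_sum]
  have hs1 : ∑ n ∈ S, g (n / p) / (n : ℝ) ≤ (1 / (p : ℝ)) * (Real.exp (-ρ) * (KK CB A + KK CB (Real.exp 1 * A))) := by
    rw [hS]
    refine (sum_shift_le p N hpp.one_lt.le g hg0).trans ?_
    refine mul_le_mul_of_nonneg_left ?_ (by positivity)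
    have h1 : ∑ k ∈ Icc 1 N, g k / (k : ℝ) = (Real.exp (-ρ) * N2 N E + Real.exp ρ * N2 N T) / 2 := by
      unfold N2
      rw [mul_sum, mul_sum, ← sum_add_distrib, sum_div]
      refine sum_congr rfl fun k _ => ?_
      rw [hg]
      simp only
      ring
    rw [h1]
    have h2 := mul_le_mul_of_nonneg_left hEN (Real.exp_pos (-ρ)).le
    have h3 := mul_le_mul_of_nonneg_left hTN (Real.exp_pos ρ).le
    have h4 : Real.exp ρ * (Real.exp (-(2 * ρ)) * KK CB (Real.exp 1 * A)) = Real.exp (-ρ) * KK CB (Real.exp 1 * A) := by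
      rw [← mul_assoc, ← Real.exp_add]
      congr 2
      ring
    rw [h4] at h3
    have h5 : 0 ≤ Real.exp (-ρ) * KK CB A := mul_nonneg (Real.exp_pos _).le (KK_pos _ _).le
    have h6 : 0 ≤ Real.exp (-ρ) * KK CB (Real.exp 1 * A) := mul_nonneg (Real.exp_pos _).le (KK_pos _ _).le
    linarith
  have hs2 : ∑ n ∈ S, (if p ^ 2 ∣ n then (1 / 2 * (‖E n‖ ^ 2 / (n : ℝ)) + (1 / 2 + A) * (‖E (n / p)‖ ^ 2 / (n : ℝ))) else 0) ≤
      1 / 2 * (10 * A ^ 4 * KK CB A / (p : ℝ) ^ 2) + (1 / 2 + A) * (4 * A ^ 2 * KK CB A / (p : ℝ) ^ 2) := by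
    rw [← sum_filter]
    have h1 : S.filter (fun n => p ^ 2 ∣ n) = (Icc 1 N).filter (fun n => p ^ 2 ∣ n) := by
      rw [hS, filter_filter]
      refine filter_congr fun n _ => ?_
      constructor
      · exact fun h => h.2
      · exact fun h => ⟨dvd_trans (Dvd.intro_left p (by rw [pow_two])) h, h⟩
    rw [h1, sum_add_distrib, ← mul_sum, ← mul_sum]
    have h2 := div_pp D l hA hC a a2 ha ha2 R N p hp
    have h3 := div_pp' D l hA0 hC a a2 ha ha2 (R + 1) N p hp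
    rw [← hE] at h2
    have h3' : ∑ n ∈ (Icc 1 N).filter (fun n => p ^ 2 ∣ n), ‖E (n / p)‖ ^ 2 / (n : ℝ) ≤ 4 * A ^ 2 * KK CB A / (p : ℝ) ^ 2 := by
      rw [hE]
      exact h3
    exact add_le_add (mul_le_mul_of_nonneg_left h2 (by norm_num)) (mul_le_mul_of_nonneg_left h3' (by linarith))
  have hs3 := mul_le_mul_of_nonneg_left hs1 hA0
  refine (add_le_add hs3 hs2).trans ?_
  have hK1 := KK_pos CB A
  have hK2 := KK_pos CB (Real.exp 1 * A)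
  unfold C1
  obtain ⟨y, hy⟩ : ∃ y : ℝ, y = Real.exp (-ρ) * (1 / (p : ℝ)) := ⟨_, rfl⟩
  obtain ⟨z, hz⟩ : ∃ z : ℝ, z = 1 / (p : ℝ) ^ 2 := ⟨_, rfl⟩
  have hy0 : 0 ≤ y := by rw [hy]; positivity
  have hz0 : 0 ≤ z := by rw [hz]; positivity
  have e1 : A * ((1 / (p : ℝ)) * (Real.exp (-ρ) * (KK CB A + KK CB (Real.exp 1 * A)))) = A * (KK CB A + KK CB (Real.exp 1 * A)) * y := by
    rw [hy]
    ring
  have e2 : 1 / 2 * (10 * A ^ 4 * KK CB A / (p : ℝ) ^ 2) + (1 / 2 + A) * (4 * A ^ 2 * KK CB A / (p : ℝ) ^ 2) =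
      (5 * A ^ 4 + (1 / 2 + A) * (4 * A ^ 2)) * KK CB A * z := by
    rw [hz]
    ring
  rw [e1, e2, ← hy, ← hz]
  have h1 : 0 ≤ A * (KK CB A + KK CB (Real.exp 1 * A)) * z := by positivity
  have h2 : 0 ≤ (5 * A ^ 4 + (1 / 2 + A) * (4 * A ^ 2)) * KK CB A * y := by positivity
  linarith

theorem ip_sh_pp (D : ℝ) (l : ℕ) {A CB : ℝ} (hA : 1 ≤ A) (hC : ∑ p ∈ PB D l, (1 : ℝ) / p ≤ CB) (a a2 : ℕ → ℂ)
    (ha : ∀ n, ‖a n‖ ≤ A) (ha2 : ∀ n, ‖a2 n‖ ≤ A) (R N p : ℕ) (hp : p ∈ PB D l) :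
    ‖ip N (sh (p ^ 2) (te (qb D a a2 l) (R + 2))) (te (qb D a a2 l) (R + 2))‖ ≤ 6 * A ^ 4 * KK CB A * (1 / (p : ℝ) ^ 2) := by
  have hpp := (mem_PB hp).1
  have hA0 : 0 ≤ A := by linarith
  have hp0 : (0 : ℝ) < p := by exact_mod_cast hpp.pos
  obtain ⟨E, hE⟩ : ∃ E : ℕ → ℂ, E = te (qb D a a2 l) (R + 2) := ⟨_, rfl⟩
  have hEN : N2 N E ≤ KK CB A := by rw [hE]; exact te_N2 D l hA0 hC a a2 ha ha2 _ N
  have h2 := div_pp D l hA hC a a2 ha ha2 R N p hp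
  rw [← hE] at h2 ⊢
  refine (ip_norm_le N _ _).trans ?_
  have h1 : ∀ n ∈ Icc 1 N, ‖sh (p ^ 2) E n‖ * ‖E n‖ / (n : ℝ) ≤
      if p ^ 2 ∣ n then (1 / 2 * (‖E (n / p ^ 2)‖ ^ 2 / (n : ℝ)) + 1 / 2 * (‖E n‖ ^ 2 / (n : ℝ))) else 0 := by
    intro n hn
    rw [mem_Icc] at hn
    have hn0 : (0 : ℝ) < n := by exact_mod_cast hn.1
    unfold sh
    split_ifs
    · have e1 : 1 / 2 * (‖E (n / p ^ 2)‖ ^ 2 / (n : ℝ)) + 1 / 2 * (‖E n‖ ^ 2 / (n : ℝ)) =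
          (1 / 2 * ‖E (n / p ^ 2)‖ ^ 2 + 1 / 2 * ‖E n‖ ^ 2) / (n : ℝ) := by ring
      rw [e1]
      refine div_le_div_of_nonneg_right ?_ hn0.le
      nlinarith [sq_nonneg (‖E (n / p ^ 2)‖ - ‖E n‖)]
    · rw [norm_zero, zero_mul, zero_div]
  refine (sum_le_sum h1).trans ?_
  rw [← sum_filter, sum_add_distrib, ← mul_sum, ← mul_sum]
  have h3 := sum_shift_le (p ^ 2) N (Nat.one_le_pow _ _ hpp.pos) (fun k => ‖E k‖ ^ 2) (fun k => by positivity)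
  have h4 : (1 / ((p ^ 2 : ℕ) : ℝ)) * ∑ k ∈ Icc 1 N, ‖E k‖ ^ 2 / (k : ℝ) ≤ 1 / (p : ℝ) ^ 2 * KK CB A := by
    push_cast
    exact mul_le_mul_of_nonneg_left hEN (by positivity)
  have hK1 := KK_pos CB A
  have hA4 : 1 ≤ A ^ 4 := one_le_pow₀ hA
  obtain ⟨z, hz⟩ : ∃ z : ℝ, z = 1 / (p : ℝ) ^ 2 := ⟨_, rfl⟩
  have hz0 : 0 ≤ z := by rw [hz]; positivity
  have e1 : 10 * A ^ 4 * KK CB A / (p : ℝ) ^ 2 = 10 * (A ^ 4 * (KK CB A * z)) := by rw [hz]; ring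
  rw [e1] at h2
  rw [← hz] at h4 ⊢
  have h5 : z * KK CB A ≤ A ^ 4 * (KK CB A * z) := by
    have : 0 ≤ KK CB A * z := by positivity
    nlinarith
  have h6 := h3.trans (h4.trans h5)
  have e2 : 6 * A ^ 4 * KK CB A * z = 6 * (A ^ 4 * (KK CB A * z)) := by ring
  have h7 : 0 ≤ A ^ 4 * (KK CB A * z) := by positivity
  rw [e2]
  linarith

/-- convolution with a block -/
theorem cv_qb (D : ℝ) (l : ℕ) (h h2 F : ℕ → ℂ) (n : ℕ) (hn : n ≠ 0) :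
    cv (qb D h h2 l) F n = ∑ p ∈ PB D l, (h p * sh p F n + h2 p / 2 * sh (p ^ 2) F n) := by
  rw [cv_filter (qb D h h2 l) F (PB D l ∪ (PB D l).image (fun p => p ^ 2)) (fun m hm => qb_supp D h h2 l m hm) n hn, sum_filter,
    sum_union]
  · rw [sum_add_distrib]
    congr 1
    · refine sum_congr rfl fun p hp => ?_
      unfold sh
      split_ifs
      · rw [qb_prime D h h2 l p hp]
      · rw [mul_zero]
    · rw [sum_image]
      · refine sum_congr rfl fun p hp => ?_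
        unfold sh
        split_ifs
        · rw [qb_sq D h h2 l p hp]
        · rw [mul_zero]
      · intro p _ p' _ hpp
        exact Nat.pow_left_injective (by norm_num : 2 ≠ 0) hpp
  · rw [disjoint_left]
    intro m hm hm'
    obtain ⟨p, hp, rfl⟩ := mem_image.1 hm'
    exact Nat.Prime.not_prime_pow (n := 2) le_rfl (mem_PB hm).1

/-- the mean in one block -/
def mub (D : ℝ) (h a : ℕ → ℂ) (l : ℕ) : ℂ := ∑ p ∈ PB D l, h p * (starRingEnd ℂ) (a p) / (p : ℂ)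

/-- the second constant -/
def C3 (CB A : ℝ) : ℝ := A * C1 CB A * (CB + 1) + 3 * A ^ 5 * KK CB A

theorem C3_nonneg {CB A : ℝ} (hA : 0 ≤ A) (hCB : 0 ≤ CB) : 0 ≤ C3 CB A := by
  have h1 := KK_pos CB A
  have h2 := C1_nonneg (CB := CB) hA
  unfold C3
  positivity

theorem blk_mean (D : ℝ) (l : ℕ) {A CB : ℝ} (hA : 1 ≤ A) (hCB : 0 ≤ CB) (hC : ∑ p ∈ PB D l, (1 : ℝ) / p ≤ CB) (a a2 h h2 : ℕ → ℂ)
    (ha : ∀ n, ‖a n‖ ≤ A) (ha2 : ∀ n, ‖a2 n‖ ≤ A) (hh : ∀ n, ‖h n‖ ≤ A) (hh2 : ∀ n, ‖h2 n‖ ≤ A) (R X N : ℕ)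
    (hX : ∀ n, X < n → te (qb D a a2 l) (R + 2) n = 0) (hXN : ∀ p ∈ PB D l, p * X ≤ N) :
    ‖ip N (fun n => cv (qb D h h2 l) (te (qb D a a2 l) (R + 2)) n + (-mub D h a l) * te (qb D a a2 l) (R + 2) n)
      (te (qb D a a2 l) (R + 2))‖ ≤ C3 CB A * (Real.exp (-((R : ℝ) + 2)) + ∑ p ∈ PB D l, 1 / (p : ℝ) ^ 2) := by
  have hA0 : 0 ≤ A := by linarith
  obtain ⟨E, hE⟩ : ∃ E : ℕ → ℂ, E = te (qb D a a2 l) (R + 2) := ⟨_, rfl⟩
  have e1 : ip N (fun n => cv (qb D h h2 l) E n + (-mub D h a l) * E n) E =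
      ∑ p ∈ PB D l, (h p * (ip N (sh p E) E - (starRingEnd ℂ) (a p) / (p : ℂ) * (N2 N E : ℂ)) + h2 p / 2 * ip N (sh (p ^ 2) E) E) := by
    have e2 : ip N (fun n => cv (qb D h h2 l) E n + (-mub D h a l) * E n) E =
        ip N (cv (qb D h h2 l) E) E + (-mub D h a l) * (N2 N E : ℂ) := by
      rw [ip_add, ← ip_self]
      congr 1
      unfold ip
      rw [mul_sum]
      refine sum_congr rfl fun n _ => ?_
      ring
    have e3 : ip N (cv (qb D h h2 l) E) E = ∑ p ∈ PB D l, (h p * ip N (sh p E) E + h2 p / 2 * ip N (sh (p ^ 2) E) E) := by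
      unfold ip
      have e4 : ∀ n ∈ Icc 1 N, cv (qb D h h2 l) E n * (starRingEnd ℂ) (E n) / (n : ℂ) =
          ∑ p ∈ PB D l, (h p * (sh p E n * (starRingEnd ℂ) (E n) / (n : ℂ)) + h2 p / 2 * (sh (p ^ 2) E n * (starRingEnd ℂ) (E n) / (n : ℂ))) := by
        intro n hn
        rw [mem_Icc] at hn
        rw [cv_qb D l h h2 E n (by omega), sum_mul, sum_div]
        refine sum_congr rfl fun p _ => ?_
        ring
      rw [sum_congr rfl e4, sum_comm]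
      refine sum_congr rfl fun p _ => ?_
      rw [sum_add_distrib, mul_sum, mul_sum]
    rw [e2, e3]
    unfold mub
    rw [neg_mul, sum_mul, ← sub_eq_add_neg, ← sum_sub_distrib]
    refine sum_congr rfl fun p _ => ?_
    ring
  rw [← hE, e1]
  have h3 : ∀ p ∈ PB D l, ‖h p * (ip N (sh p E) E - (starRingEnd ℂ) (a p) / (p : ℂ) * (N2 N E : ℂ)) + h2 p / 2 * ip N (sh (p ^ 2) E) E‖ ≤
      A * C1 CB A * Real.exp (-((R : ℝ) + 2)) * (1 / (p : ℝ)) + (A * C1 CB A + 3 * A ^ 5 * KK CB A) * (1 / (p : ℝ) ^ 2) := by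
    intro p hp
    have g1 := ip_sh_p D l hA hC a a2 ha ha2 R X N p hp hX (hXN p hp)
    have g2 := ip_sh_pp D l hA hC a a2 ha ha2 R N p hp
    rw [← hE] at g1 g2
    refine (norm_add_le _ _).trans ?_
    rw [norm_mul, norm_mul, norm_div]
    have g3 := mul_le_mul (hh p) g1 (norm_nonneg _) hA0
    have g4 : ‖h2 p‖ / ‖(2 : ℂ)‖ ≤ A / 2 := by
      rw [Complex.norm_ofNat]
      exact div_le_div_of_nonneg_right (hh2 p) (by norm_num)
    have g5 := mul_le_mul g4 g2 (norm_nonneg _) (by positivity)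
    refine (add_le_add g3 g5).trans (le_of_eq ?_)
    ring
  refine (norm_sum_le _ _).trans ((sum_le_sum h3).trans ?_)
  rw [sum_add_distrib, ← mul_sum, ← mul_sum]
  have hK := KK_pos CB A
  have hC1 := C1_nonneg (CB := CB) hA0
  have hexp := Real.exp_pos (-((R : ℝ) + 2))
  have hσ : 0 ≤ ∑ p ∈ PB D l, 1 / (p : ℝ) ^ 2 := sum_nonneg fun p _ => by positivity
  have g6 : A * C1 CB A * Real.exp (-((R : ℝ) + 2)) * ∑ p ∈ PB D l, (1 / (p : ℝ)) ≤ A * C1 CB A * Real.exp (-((R : ℝ) + 2)) * CB :=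
    mul_le_mul_of_nonneg_left hC (by positivity)
  unfold C3
  have g7 : 0 ≤ A * C1 CB A * Real.exp (-((R : ℝ) + 2)) := by positivity
  have g8 : 0 ≤ 3 * A ^ 5 * KK CB A * Real.exp (-((R : ℝ) + 2)) := by positivity
  have g9 : 0 ≤ A * C1 CB A * CB * ∑ p ∈ PB D l, 1 / (p : ℝ) ^ 2 := by positivity
  have e2 : (A * C1 CB A * (CB + 1) + 3 * A ^ 5 * KK CB A) * (Real.exp (-((R : ℝ) + 2)) + ∑ p ∈ PB D l, 1 / (p : ℝ) ^ 2) =
      A * C1 CB A * Real.exp (-((R : ℝ) + 2)) * CB + A * C1 CB A * Real.exp (-((R : ℝ) + 2)) +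
      3 * A ^ 5 * KK CB A * Real.exp (-((R : ℝ) + 2)) + A * C1 CB A * CB * (∑ p ∈ PB D l, 1 / (p : ℝ) ^ 2) +
      (A * C1 CB A + 3 * A ^ 5 * KK CB A) * (∑ p ∈ PB D l, 1 / (p : ℝ) ^ 2) := by ring
  rw [e2]
  linarith

/-- the third constant -/
def C4 (CB A : ℝ) : ℝ := 2 * KK CB (2 * A) + 2 * (A ^ 2 * CB) ^ 2 * KK CB A

theorem blk_var (D : ℝ) (l : ℕ) {A CB : ℝ} (hA : 1 ≤ A) (hCB : 0 ≤ CB) (hC : ∑ p ∈ PB D l, (1 : ℝ) / p ≤ CB) (a a2 h h2 : ℕ → ℂ)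
    (ha : ∀ n, ‖a n‖ ≤ A) (ha2 : ∀ n, ‖a2 n‖ ≤ A) (hh : ∀ n, ‖h n‖ ≤ A) (hh2 : ∀ n, ‖h2 n‖ ≤ A) (R N : ℕ) :
    N2 N (fun n => cv (qb D h h2 l) (te (qb D a a2 l) R) n + (-mub D h a l) * te (qb D a a2 l) R n) ≤ C4 CB A := by
  have hA0 : 0 ≤ A := by linarith
  refine (N2_le_two N _ _).trans ?_
  rw [N2_mul_const, norm_neg]
  have h1 := cv_N2 D l hA0 hC a a2 h h2 ha ha2 hh hh2 R N
  have h3 := te_N2 D l hA0 hC a a2 ha ha2 R N
  have h4 : ‖mub D h a l‖ ≤ A ^ 2 * CB := by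
    unfold mub
    refine (norm_sum_le _ _).trans ?_
    calc ∑ p ∈ PB D l, ‖h p * (starRingEnd ℂ) (a p) / (p : ℂ)‖ ≤ ∑ p ∈ PB D l, A ^ 2 * (1 / (p : ℝ)) := by
          refine sum_le_sum fun p _ => ?_
          rw [norm_div, norm_mul, RCLike.norm_conj, Complex.norm_natCast, mul_one_div]
          refine div_le_div_of_nonneg_right ?_ (Nat.cast_nonneg p)
          rw [pow_two]
          exact mul_le_mul (hh p) (ha p) (norm_nonneg _) hA0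
      _ = A ^ 2 * ∑ p ∈ PB D l, (1 / (p : ℝ)) := by rw [mul_sum]
      _ ≤ A ^ 2 * CB := mul_le_mul_of_nonneg_left hC (by positivity)
  have h5 : ‖mub D h a l‖ ^ 2 ≤ (A ^ 2 * CB) ^ 2 := pow_le_pow_left₀ (norm_nonneg _) h4 2
  have h6 : ‖mub D h a l‖ ^ 2 * N2 N (te (qb D a a2 l) R) ≤ (A ^ 2 * CB) ^ 2 * KK CB A :=
    mul_le_mul h5 h3 (N2_nonneg _ _) (by positivity)
  unfold C4
  linarith

theorem te_ge_one (D : ℝ) (l : ℕ) (a a2 : ℕ → ℂ) (R N : ℕ) (hN : 1 ≤ N) : 1 ≤ N2 N (te (qb D a a2 l) R) := by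
  unfold N2
  have h1 : ‖te (qb D a a2 l) R 1‖ ^ 2 / ((1 : ℕ) : ℝ) = 1 := by
    rw [te_one]
    simp
  rw [← h1]
  exact single_le_sum (f := fun n : ℕ => ‖te (qb D a a2 l) R n‖ ^ 2 / (n : ℝ)) (fun n _ => by positivity) (mem_Icc.2 ⟨le_rfl, hN⟩)

end

end Pool.Agent.Q177.UM
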